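import Pool.Agent.Lib.MP_5c318e_ag.C.Siz
import Pool.Agent.Lib.MP_5c318e_ag.Tw.TDefs
import Pool.Agent.Lib.MP_5c318e_ag.S.LowA
import Pool.Agent.Lib.MP_5c318e_ag.S.CCov
import Pool.Agent.Lib.MP_5c318e_ag.RD.RExt

/-! Small lifted balls on a chart, and sizes on a family of finite coverings. -/

set_option autoImplicit false
set_option linter.unusedSectionVars false

namespace Pool.Agent.Lib.MP_5c318e_ag

open MeasureTheory Set Filter Topology Metric

noncomputable section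

section chart

variable {ι F : Type} [Fintype ι] [DecidableEq ι] [Field F] [Algebra ℂ F]

/-- regular functions without common zero are almost constant on small lifted balls -/
theorem Cht.lift_near (c : Cht ι F) : ∃ σ : Pt c.O → (ι → ℂ) → Pt c.O,
    (∀ᶠ K in atTop, ∀ p, σ p (c.D.π p) = p ∧ ContinuousOn (σ p) (Hyp.bal c.D K c.siz p) ∧
      ∀ w ∈ Hyp.bal c.D K c.siz p, c.D.π (σ p w) = w ∧ |c.siz (σ p w) - c.siz p| ≤ 1) ∧
    ∀ {α : Type} [Fintype α] (g : α → c.O), (∀ p : Pt c.O, ∃ i, p (g i) ≠ 0) →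
      ∀ᶠ K in atTop, ∀ p, ∀ w ∈ Hyp.bal c.D K c.siz p,
        ∑ i, ‖σ p w (g i)‖ ^ 2 ≤ 4 * Fintype.card α * ∑ i, ‖p (g i)‖ ^ 2 := by
  obtain ⟨K0, k0, h⟩ := c.lift_bal
  choose σ s1 s2 s3 using h
  have s0 := c.siz_nonneg
  have key : ∀ (φ : c.O) (m : Pt c.O → ℝ), Md c.siz m → ∀ᶠ K in atTop, ∀ p,
      ∀ w ∈ Hyp.bal c.D K c.siz p, ‖σ p w φ - p φ‖ * m p ≤ 1 := by
    rintro φ m ⟨K2, k2, h2⟩
    obtain ⟨K1, k1, h1⟩ := c.md φ
    filter_upwards [eventually_ge_atTop (2 * K1 + K0 + K2 + 1)] with K hK p w hw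
    have sp := s0 p
    have d := Complex.dist_le_div_mul_dist_of_mapsTo_ball (R₂ := 2 * Real.exp (K1 * c.siz p + 2 * K1))
      ((c.hol φ).on_sec isOpen_ball (s2 p) fun z hz => (s3 p z hz).1) (fun z hz => by
        rw [mem_closedBall, s1, dist_eq_norm]
        have a1 := (h1 (σ p z)).trans (Real.exp_le_exp.2 (show _ ≤ K1 * c.siz p + 2 * K1 by
          nlinarith [(abs_le.1 (s3 p z hz).2).2]))
        have a2 := (h1 p).trans (Real.exp_le_exp.2 (show _ ≤ K1 * c.siz p + 2 * K1 by linarith))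
        linarith [norm_sub_le (σ p z φ) (p φ)])
      (Hyp.bal_mono (show K0 ≤ K by linarith) sp hw)
    rw [s1, dist_eq_norm] at d
    have e : (2 : ℝ) ≤ Real.exp 1 := by linarith [Real.add_one_le_exp 1]
    calc _ ≤ Real.exp 1 * Real.exp (K1 * c.siz p + 2 * K1) / Real.exp (-(K0 * c.siz p + K0)) *
          Real.exp (-(K * c.siz p + K)) * Real.exp (K2 * c.siz p + K2) := by
          refine (mul_le_mul_of_nonneg_left (h2 p) (norm_nonneg _)).trans ?_
          have := (mem_ball.1 hw).le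
          refine mul_le_mul_of_nonneg_right (d.trans ?_) (Real.exp_pos _).le
          gcongr
      _ ≤ 1 := by
          rw [← Real.exp_add, ← Real.exp_sub, ← Real.exp_add, ← Real.exp_add, Real.exp_le_one_iff]
          nlinarith
  refine ⟨σ, (eventually_ge_atTop K0).mono fun K hK p => ⟨s1 p,
    (s2 p).mono (Hyp.bal_mono hK (s0 p)), fun w hw => s3 p w (Hyp.bal_mono hK (s0 p) hw)⟩,
    fun {α} _ g hg => ?_⟩
  obtain ⟨a, ha⟩ : ∃ a : α → c.O, ∑ i, a i * g i = 1 := by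
    refine Ideal.mem_span_range_iff_exists_fun.1 ((Ideal.eq_top_iff_one _).1 ?_)
    by_contra h
    obtain ⟨p, hp⟩ := Pt.exists_zero h
    obtain ⟨i, hi⟩ := hg p
    exact hi (hp _ (Ideal.subset_span ⟨i, rfl⟩))
  filter_upwards [eventually_all.2 fun i => key (g i) (fun p => ∑ j, ‖p (a j)‖)
    (Md.sum s0 _ fun j _ => c.md _)] with K hK p w hw
  set S := √(∑ i, ‖p (g i)‖ ^ 2) with hS
  have le : ∀ i, ‖p (g i)‖ ≤ S := fun i => Real.le_sqrt_of_sq_le
    (Finset.single_le_sum (f := fun i => ‖p (g i)‖ ^ 2) (fun _ _ => by positivity)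
      (Finset.mem_univ i))
  have one : 1 ≤ S * ∑ j, ‖p (a j)‖ := by
    rw [← norm_one (α := ℂ), ← map_one p, ← ha, map_sum, Finset.mul_sum]
    refine (norm_sum_le _ _).trans (Finset.sum_le_sum fun j _ => ?_)
    rw [map_mul, norm_mul, mul_comm]
    exact mul_le_mul_of_nonneg_right (le j) (norm_nonneg _)
  have m0 : 0 < ∑ j, ‖p (a j)‖ :=
    (pos_iff_pos_of_mul_pos (one_pos.trans_le one)).1 ((Real.sqrt_nonneg _).lt_of_ne fun h => by
      rw [hS, ← h] at one; linarith)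
  rw [← Real.sq_sqrt (show 0 ≤ ∑ i, ‖p (g i)‖ ^ 2 by positivity), ← hS]
  refine (Finset.sum_le_card_nsmul _ _ ((2 * S) ^ 2) fun i _ =>
    pow_le_pow_left₀ (norm_nonneg _) ?_ 2).trans_eq (by simp only [Finset.card_univ, nsmul_eq_mul]; ring)
  have := le_of_mul_le_mul_right ((hK i p w hw).trans one) m0
  linarith [norm_le_insert' (σ p w (g i)) (p (g i)), le i]

end chart

namespace Xt

variable {δ ν K M : Type} [Fintype δ] [DecidableEq δ] [Fintype ν] [DecidableEq ν]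
  [Field K] [Algebra ℂ K] [Field M] [Algebra ℂ M] [Algebra K M] {B : Cht δ K}

/-- evaluation at a point of the base -/
abbrev evB (B : Cht δ K) (b : Pt B.O) : B.O →+* ℂ := b.hom

/-- the fibre coordinates -/
def xc (T : Rel B ν M) (x : Pt T.X.O) : ν → ℂ := fun j => x (T.X.z (Sum.inr j))

/-- a polynomial in the fibre coordinates as a regular function -/
def up (T : Rel B ν M) (g : MvPolynomial ν B.O) : T.X.O :=
  MvPolynomial.eval₂ (T.inc : B.O →+* T.X.O) (fun j => T.X.z (Sum.inr j)) g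

/-- the size of the tower on the total space -/
def L (T : Rel B ν M) (Δ : MvPolynomial ν B.O) (x : Pt T.X.O) : ℝ :=
  Tw.sz (evB B) B.siz Δ (x.res T.inc) (xc T x)

variable {T : Rel B ν M} {Δ : MvPolynomial ν B.O}

theorem fib_xc (b : Pt B.O) (p : {p : Pt T.X.O // p.res T.inc = b}) : (T.fib b).π p = xc T p.1 :=
  funext (T.fib_π b p)

theorem up_eq (x : Pt T.X.O) (g : MvPolynomial ν B.O) :
    x (up T g) = MvPolynomial.eval₂ (evB B (x.res T.inc)) (xc T x) g :=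
  (x.apply_mv _ _ g).trans (MvPolynomial.eval_map _ _ _)

theorem L_eq (x : Pt T.X.O) :
    L T Δ x = 2 + B.siz (x.res T.inc) + Real.log (1 + ‖xc T x‖ + ‖x (up T Δ)‖⁻¹) := by
  rw [up_eq]; rfl

theorem log_nonneg (x : Pt T.X.O) : 0 ≤ Real.log (1 + ‖xc T x‖ + ‖x (up T Δ)‖⁻¹) :=
  Real.log_nonneg (by linarith [norm_nonneg (xc T x), inv_nonneg.2 (norm_nonneg (x (up T Δ)))])

theorem two_le_L (x : Pt T.X.O) : 2 ≤ L T Δ x := by
  linarith [L_eq (Δ := Δ) x, log_nonneg (Δ := Δ) x, B.siz_nonneg (x.res T.inc)]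

theorem le_exp_L (x : Pt T.X.O) : 1 + ‖xc T x‖ + ‖x (up T Δ)‖⁻¹ ≤ Real.exp (L T Δ x) :=
  (Real.log_le_iff_le_exp (by positivity)).1
    (by linarith [L_eq (Δ := Δ) x, B.siz_nonneg (x.res T.inc)])

theorem norm_inv {O : Type} [CommRing O] [Algebra ℂ O] (x : Pt O) {a a' : O} (h : a * a' = 1) :
    ‖x a'‖ = ‖x a‖⁻¹ :=
  eq_inv_of_mul_eq_one_right (by rw [← norm_mul, ← map_mul, h, map_one, norm_one])

theorem md_sizB : Md T.X.siz fun x => Real.exp (B.siz (x.res T.inc)) :=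
  (Md.add T.X.siz_nonneg (Md.sum T.X.siz_nonneg B.gens fun a _ =>
    (T.X.md (T.inc a)).pow T.X.siz_nonneg (fun _ => norm_nonneg _) 2)
    (Md.const T.X.siz_nonneg 1)).mono fun x => (Real.exp_log (by positivity)).le

theorem sizB_le : ∃ A : ℝ, 0 ≤ A ∧ ∀ x : Pt T.X.O, B.siz (x.res T.inc) ≤ A * T.X.siz x + A :=
  let ⟨A, h0, h⟩ := md_sizB (T := T); ⟨A, h0, fun x => Real.exp_le_exp.1 (h x)⟩

theorem md_πB : Md T.X.siz fun x => ‖B.D.π (x.res T.inc)‖ :=
  (Md.sum T.X.siz_nonneg Finset.univ fun i _ => T.X.md (T.inc (B.z i))).mono fun x =>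
    (pi_norm_le_iff_of_nonneg (by positivity)).2 fun i => by
      rw [B.π_eq]
      exact Finset.single_le_sum (f := fun i => ‖x (T.inc (B.z i))‖) (fun _ _ => norm_nonneg _)
        (Finset.mem_univ i)

theorem L_le (hu : IsUnit (up T Δ)) : ∃ A : ℝ, 0 ≤ A ∧ ∀ x, L T Δ x ≤ A * T.X.siz x + A := by
  obtain ⟨u, hu⟩ := hu.exists_right_inv
  have s0 := T.X.siz_nonneg
  obtain ⟨A, a0, ha⟩ := sizB_le (T := T)
  obtain ⟨C, c0, hc⟩ := (Md.add s0 (Md.add s0 (Md.const s0 1) (Md.sum s0 Finset.univ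
    fun j _ => T.X.md (T.X.z (Sum.inr j)))) (T.X.md u)).log_le fun x => by positivity
  refine ⟨A + C + 2, by positivity, fun x => ?_⟩
  have : Real.log (1 + ‖xc T x‖ + ‖x (up T Δ)‖⁻¹) ≤ _ := (Real.log_le_log (by positivity) (by
    rw [norm_inv x hu]
    gcongr
    exact (pi_norm_le_iff_of_nonneg (by positivity)).2 fun j =>
      Finset.single_le_sum (f := fun j => ‖x (T.X.z (Sum.inr j))‖) (fun _ _ => norm_nonneg _)
        (Finset.mem_univ j))).trans (hc x)
  nlinarith [L_eq (Δ := Δ) x, ha x, s0 x]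

/-- regular functions are moderate for the size of the tower -/
theorem md_L (T : Fam B ν M) (hd : T.finX.Δ ∣ Δ) (hu : IsUnit (up T.toRel Δ)) (φ : T.X.O) :
    Md (L T.toRel Δ) fun x => ‖x φ‖ := by
  have l0 : ∀ x, 0 ≤ L T.toRel Δ x := fun x => zero_le_two.trans (two_le_L x)
  let S : Subring T.X.O :=
    { carrier := {φ | Md (L T.toRel Δ) fun x => ‖x φ‖}
      mul_mem' := fun ha hb => (ha.mul hb fun _ => norm_nonneg _).mono fun x => by
        rw [map_mul, norm_mul]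
      one_mem' := (Md.const l0 1).mono fun x => by rw [map_one, norm_one]
      add_mem' := fun ha hb => (Md.add l0 ha hb).mono fun x => by
        rw [map_add]; exact norm_add_le _ _
      zero_mem' := (Md.const l0 0).mono fun x => by rw [map_zero, norm_zero]
      neg_mem' := fun ha => ha.mono fun x => by rw [map_neg, norm_neg] }
  have h1 : ∀ g, up T.toRel g ∈ S := fun g => MvPolynomial.eval₂_mem (fun i _ => by
    obtain ⟨A, a0, ha⟩ := B.md (g.coeff i)
    refine ⟨A, a0, fun x => (ha (x.res T.inc)).trans (Real.exp_le_exp.2 ?_)⟩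
    gcongr
    linarith [L_eq (Δ := Δ) x, log_nonneg (Δ := Δ) x]) fun j => Md.exp.mono fun x => by
      refine (norm_le_pi_norm (xc T.toRel x) j).trans ?_
      linarith [le_exp_L (Δ := Δ) x, inv_nonneg.2 (norm_nonneg (x (up T.toRel Δ)))]
  obtain ⟨u, hu⟩ := hu.exists_right_inv
  have h2 : u ∈ S := Md.exp.mono fun x => by
    rw [norm_inv x hu]
    linarith [le_exp_L (Δ := Δ) x, norm_nonneg (xc T.toRel x)]
  have h3 : T.finX.w ∈ S := (Md.add l0 (Md.const l0 1) (Md.sum l0 (Finset.range T.finX.f.natDegree)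
    fun i _ => h1 (T.finX.f.coeff i))).mono fun x => by
      have := Low.root_le T.finX.monic ((x.hom : T.X.O →+* ℂ).comp (MvPolynomial.eval₂Hom
        (T.inc : B.O →+* T.X.O) fun j => T.X.z (Sum.inr j))) (w := x T.finX.w)
        ((Polynomial.hom_eval₂ _ _ (x.hom : T.X.O →+* ℂ) _).symm.trans
          (by rw [T.finX.root, map_zero]))
      simp only [← ofReal_norm] at this
      rwa [← ENNReal.ofReal_sum_of_nonneg fun _ _ => norm_nonneg _, ← ENNReal.ofReal_one,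
        ← ENNReal.ofReal_add zero_le_one (by positivity),
        ENNReal.ofReal_le_ofReal_iff (by positivity)] at this
  obtain ⟨e, rfl⟩ := hd
  obtain ⟨P, j, h⟩ := T.finX.gen φ
  have h4 : φ = φ * up T.toRel T.finX.Δ ^ j * (up T.toRel e * u) ^ j := by
    rw [mul_assoc, ← mul_pow, ← mul_assoc _ _ u, up, up, ← MvPolynomial.eval₂_mul, ← up, hu,
      one_pow, mul_one]
  refine (h4 ▸ S.mul_mem ?_ (S.pow_mem (S.mul_mem (h1 e) h2) j) : φ ∈ S)
  rw [up, h, Polynomial.eval₂_eq_sum_range]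
  exact S.sum_mem fun i _ => S.mul_mem (h1 _) (S.pow_mem h3 i)

theorem siz_le_L (T : Fam B ν M) (hd : T.finX.Δ ∣ Δ) (hu : IsUnit (up T.toRel Δ)) :
    ∃ A : ℝ, 0 ≤ A ∧ ∀ x, T.X.siz x ≤ A * L T.toRel Δ x + A :=
  have l0 : ∀ x, 0 ≤ L T.toRel Δ x := fun x => zero_le_two.trans (two_le_L x)
  (Md.add l0 (Md.sum l0 T.X.gens fun a _ => (md_L T hd hu a).pow l0 (fun _ => norm_nonneg _) 2)
    (Md.const l0 1)).log_le fun x => by positivity

end Xt

end

end Pool.Agent.Lib.MP_5c318e_ag
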