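import Pool.Agent.Lib.MP_5c318e_ag.W.LP
import Pool.Agent.Lib.MP_5c318e_ag.Fp.PwDefs

/-! Data for a plurisubharmonic weight on the total space of a family. -/

set_option autoImplicit false
set_option linter.unusedSectionVars false

namespace Pool.Agent.Lib.MP_5c318e_ag

open MeasureTheory Set Filter Topology Metric
open scoped ENNReal

noncomputable section

namespace Xt

/-- squared distance to `b0` in the coordinates `e` -/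
def qd {ι κ S : Type} [Fintype ι] [Fintype κ] [TopologicalSpace S] [MeasurableSpace S] (D : RD ι S)
    (e : κ ↪ ι) (b0 : κ → ℂ) (x : S) : ℝ := ∑ k, ‖D.π x (e k) - b0 k‖ ^ 2

variable {δ ν K M : Type} [Fintype δ] [DecidableEq δ] [Fintype ν] [DecidableEq ν]
  [Field K] [Algebra ℂ K] [Field M] [Algebra ℂ M] [Algebra K M] [IsScalarTower ℂ K M]
  {B : Cht δ K} (T : Rel B ν M)

/-- the fibre integral of `|f|^(2 (1 - t)) / om` -/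
def fI (om : Pt T.X.O → ℝ) (t : ℝ) (b : Pt B.O) (f : T.Fib b → ℂ) : ℝ≥0∞ :=
  ∫⁻ x, ‖f x‖ₑ ^ (2 * (1 - t)) * (ENNReal.ofReal (om x.1))⁻¹ ∂(T.fib b).μ

/-- the global integral on the fibre power -/
def gI (om : Pt T.X.O → ℝ) (t : ℝ) (φB : Pt B.O → ℝ) (η : ℝ) (b0 : δ → ℂ) (R : ℕ)
    (U : T.Pow (Fin R) → ℂ) : ℝ≥0∞ :=
  ∫⁻ q, ‖U q‖ₑ ^ (2 * (1 - t)) * (ENNReal.ofReal ((∏ k, om (q.p k)) *
    (∑ i, ‖B.D.π q.b i - b0 i‖ ^ 2 + 1) ^ (Fintype.card δ + 1)))⁻¹ *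
    ENNReal.ofReal (Real.exp (-(η * R * φB q.b))) ∂(T.pow (Fin R)).μ

/-- the diagonal of the fibre power -/
def dg (R : ℕ) (x : Pt T.X.O) : T.Pow (Fin R) := ⟨(x.res T.inc, fun _ => x), fun _ => rfl⟩

/-- what is fixed for all fibres: exponent `t`, weight `om`, closed family `s`, sizes `φ`, `φB`,
majorant `Ψ` of the mean value inequality -/
structure Data (ρ : Type) [Fintype ρ] where
  t : ℝ
  om : Pt T.X.O → ℝ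
  s : ρ → Pt T.X.O → ℂ
  φ : Pt T.X.O → ℝ
  φB : Pt B.O → ℝ
  Ψ : Pt T.X.O → ℝ
  A : ℝ
  t0 : 0 < t
  t1 : t < 1
  exB : ∃ u, B.D.Exh u
  exX : ∃ u, T.X.D.Exh u
  lp : T.X.D.LP om
  hol : ∀ i, T.X.D.Hol (s i)
  φ0 : ∀ x, 0 ≤ φ x
  φB0 : ∀ b, 0 ≤ φB b
  mB : Measurable φB
  A0 : 0 ≤ A
  vol : ∀ b0 : δ → ℂ, ∫⁻ b, (ENNReal.ofReal
    ((∑ i, ‖B.D.π b i - b0 i‖ ^ 2 + 1) ^ (Fintype.card δ + 1)))⁻¹ ∂B.D.μ ≠ ⊤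
  sat : ∀ᵐ b ∂B.D.μ, ∀ f : T.Fib b → ℂ, (T.fib b).Hol f →
    ∫⁻ x, ENNReal.ofReal (‖f x‖ ^ 2) * (ENNReal.ofReal (∑ i, ‖s i x.1‖ ^ 2) ^ (-t) *
      (ENNReal.ofReal (om x.1))⁻¹) ∂(T.fib b).μ < ⊤ → ∃ a : ρ → ℂ, ∀ x, f x = ∑ i, a i * s i x.1
  siz : ∀ x : Pt T.X.O, ‖B.D.π (x.res T.inc)‖ ≤ Real.exp (A * φ x + A)
  sub : ∀ x : Pt T.X.O, ∃ (r : ℝ) (σ : (δ → ℂ) → Pt T.X.O), Real.exp (-(A * φ x + A)) ≤ r ∧ r ≤ 1 ∧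
    σ (B.D.π (x.res T.inc)) = x ∧ ContinuousOn σ (ball (B.D.π (x.res T.inc)) r) ∧
    DifferentiableOn ℂ (fun y => T.X.D.π (σ y)) (ball (B.D.π (x.res T.inc)) r) ∧
    ∀ y ∈ ball (B.D.π (x.res T.inc)) r, B.D.π ((σ y).res T.inc) = y ∧
      φB ((σ y).res T.inc) ≤ A * φ x + A ∧
      ∀ f : T.Fib ((σ y).res T.inc) → ℂ, (T.fib _).Hol f →
        ‖f ⟨σ y, rfl⟩‖ₑ ^ (2 * (1 - t)) ≤ ENNReal.ofReal (Real.exp (Ψ x)) * fI T om t _ f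

variable {T} {ρ : Type} [Fintype ρ] [DecidableEq ρ]

/-- `U` is a good start at the fibre `b1` -/
structure Data.Ok (d : Data T ρ) (C0 : ℝ) (b1 : Pt B.O) (U : Pt T.X.O → ℂ) : Prop where
  hol : T.X.D.Hol U
  near : ∀ᶠ b in 𝓝 b1, fI T d.om d.t b (fun x => U x.1) ≤ ENNReal.ofReal C0
  glob : ∃ C β : ℝ, 0 ≤ β ∧ ∀ᵐ b ∂B.D.μ,
    fI T d.om d.t b (fun x => U x.1) ≤ ENNReal.ofReal (C * Real.exp (β * d.φB b))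
  span : ∀ᵐ b ∂B.D.μ, ∃ a : ρ → ℂ, ∀ x : T.Fib b, U x.1 = ∑ i, a i * d.s i x.1

end Xt

end

end Pool.Agent.Lib.MP_5c318e_ag
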