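import Pool.Agent.Lib.MP_5c318e_ag.Xt.SubA
import Pool.Agent.Lib.MP_5c318e_ag.Xt.XDefs
import Pool.Agent.Lib.MP_5c318e_ag.Tw.One
import Pool.Agent.Lib.MP_5c318e_ag.Tw.Root
import Pool.Agent.Lib.MP_5c318e_ag.S.ModA
import Pool.Agent.Lib.MP_5c318e_ag.S.RAlgA

/-! The mean value inequality on the fibres of a family, with the tower density as majorant. -/

set_option autoImplicit false
set_option linter.unusedSectionVars false

namespace Pool.Agent.Lib.MP_5c318e_ag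

open MeasureTheory Set Filter Topology Metric
open scoped ENNReal

namespace Xt

theorem pd_lift {ι S : Type} [Fintype ι] [DecidableEq ι] [TopologicalSpace S] [MeasurableSpace S]
    [BorelSpace S] [T2Space S] [SigmaCompactSpace S] {D : RD ι S} (C : D.Cov) {p : S} {J : ℝ}
    {Q : (ι → ℂ) → ι → ℂ} (h : Tw.Pd (D.π p) J Q)
    (hs : ∀ w ∈ ball (0 : ι → ℂ) 1, MvPolynomial.eval (Q w) C.Δ ≠ 0) :
    ∃ σ : (ι → ℂ) → S, σ 0 = p ∧ (∀ w ∈ ball (0 : ι → ℂ) 1, D.π (σ w) = Q w) ∧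
      (∀ u : S → ℂ, D.Hol u → DifferentiableOn ℂ (fun w => u (σ w)) (ball 0 1)) ∧
      ∀ F : S → ℝ≥0∞, Measurable F →
        ENNReal.ofReal J * ∫⁻ w in ball 0 1, F (σ w) ≤ ∫⁻ x, F x ∂D.μ := by
  obtain ⟨σ, s1, s2, s3, -⟩ := Tw.lifts C.isOpen_base C.Δ_ne (fun a ha => C.card ha)
    h.hol.continuousOn hs
  let k : D.π ⁻¹' {Q 0} := ⟨p, h.zero.symm⟩
  refine ⟨σ k, s1 k, s3 k, fun u hu w hw => ?_, fun F hF => ?_⟩
  · have n := isOpen_ball.mem_nhds hw
    have d := hu (σ k w)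
    rw [s3 k w hw] at d
    refine ((d.comp w (h.hol.differentiableAt n)).congr_of_eventuallyEq ?_).differentiableWithinAt
    filter_upwards [n, ((s2 k).continuousAt n).eventually
      ((D.ch (σ k w)).open_source.mem_nhds (D.mem_src _))] with v h1 h2
    rw [Function.comp_apply, ← s3 k v h1, RD.sec_π h2]
  · rw [(D.lint_fib hF).2]
    refine le_trans (mul_le_mul_right (setLIntegral_mono' measurableSet_ball fun w hw => ?_) _)
      (h.int _ (D.lint_fib hF).1)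
    exact ENNReal.le_tsum (f := fun y : D.π ⁻¹' {Q w} => F y) ⟨σ k w, s3 k w hw⟩

variable {δ ν K M : Type} [Fintype δ] [DecidableEq δ] [Fintype ν] [DecidableEq ν]
  [Field K] [Algebra ℂ K] [Field M] [Algebra ℂ M] [Algebra K M] [IsScalarTower ℂ K M]
  {B : Cht δ K} (T : Fam B ν M) {Δ : MvPolynomial ν B.O} {Λ : Pt B.O → (ν → ℂ) → ℝ} {κ : ℝ} {N : ℕ}
  {I : Type} [Fintype I] {q : I → T.X.O}

/-- the values of the `q i` at `x` and `z` agree up to the factor `c` -/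
def Nr {O I : Type} [CommRing O] [Algebra ℂ O] (q : I → O) (c : ℝ) (x z : Pt O) : Prop :=
  ∀ i, ‖z (q i)‖ ≤ c * ‖x (q i)‖ ∧ ‖x (q i)‖ ≤ c * ‖z (q i)‖

/-- the mean value inequality on one fibre -/
theorem fib_mean (h : Tw.Tow (evB B) B.siz Δ Λ κ N) (hd : T.finX.Δ ∣ Δ)
    (hu : IsUnit (up T.toRel Δ)) (hq : ∀ i, IsUnit (q i)) :
    ∃ (C : ℝ) (n : ℕ), 1 ≤ C ∧ ∀ (b : Pt B.O) (x : T.Fib b) (p : ℝ), 0 < p →
      ∀ (om : T.Fib b → ℝ) (Om : ℝ), Measurable om → 0 < Om →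
      (∀ z : T.Fib b, Nr q 2 x.1 z.1 → Λ b (xc T.toRel z.1) ≤ κ * Λ b (xc T.toRel x.1) →
        om z ≤ Om) → ∀ f : T.Fib b → ℂ, (T.fib b).Hol f →
        ‖f x‖ₑ ^ p ≤ ENNReal.ofReal (C * L T.toRel Δ x.1 ^ n * Λ b (xc T.toRel x.1) * Om) *
          ∫⁻ z, ‖f z‖ₑ ^ p * (ENNReal.ofReal (om z))⁻¹ ∂(T.fib b).μ := by
  have l0 : ∀ x, 0 ≤ L T.toRel Δ x := fun x => zero_le_two.trans (two_le_L x)
  choose u hqu using fun i => (hq i).exists_right_inv
  obtain ⟨A, a0, hA⟩ := Md.sum l0 Finset.univ fun i _ =>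
    Md.add l0 (md_L T hd hu (q i)) (md_L T hd hu (u i))
  have q0 : ∀ (x : Pt T.X.O) i, x (q i) ≠ 0 := fun x i => ((hq i).map x.hom).ne_zero
  have lg : ∀ (x : Pt T.X.O) i, |Real.log ‖x (q i)‖| ≤ A * L T.toRel Δ x + A := fun x i => by
    have := (Finset.single_le_sum (f := fun i => ‖x (q i)‖ + ‖x (u i)‖) (fun _ _ => by positivity)
      (Finset.mem_univ i)).trans (hA x)
    have p0 := norm_pos_iff.2 (q0 x i)
    rw [norm_inv x (hqu i)] at this
    rw [abs_le', ← Real.log_inv, Real.log_le_iff_le_exp p0, Real.log_le_iff_le_exp (inv_pos.2 p0)]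
    constructor <;> linarith [inv_pos.2 p0]
  have k1 := h.one_le
  set c := 32 * (A * κ + A + 1) with hc
  have c1 : 1 ≤ c := by nlinarith
  refine ⟨(c ^ 2) ^ Fintype.card ν, N + 2 * Fintype.card ν, one_le_pow₀ (one_le_pow₀ c1), ?_⟩
  rintro b ⟨x, rfl⟩ p p0 om Om mo O0 hO f hf
  obtain ⟨C, -, e2, -⟩ := T.cov (x.res T.inc) fun e => T.finX.Δ_ne x (by rw [e, map_zero])
  have d0 : MvPolynomial.eval₂ (evB B (x.res T.inc)) (xc T.toRel x) Δ ≠ 0 := by
    rw [← up_eq]; exact (hu.map x.hom).ne_zero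
  obtain ⟨J, Q, hP, h1, h2⟩ := h.disc _ _ d0
  obtain ⟨σ, s0, s2, s3, s4⟩ := pd_lift C (p := ⟨x, rfl⟩) (by rwa [fib_xc]) fun w hw => by
    obtain ⟨e, rfl⟩ := hd
    have := (h2 w hw).1
    rw [MvPolynomial.eval₂_mul] at this
    rw [e2, MvPolynomial.eval_map]
    exact left_ne_zero_of_mul this
  change 1 ≤ J * _ * L T.toRel Δ x ^ N at h1
  set l := L T.toRel Δ x with hl
  have l2 : 2 ≤ l := two_le_L x
  have Λ0 := h.pos _ _ d0
  have J0 : 0 < J := (pos_iff_pos_of_mul_pos ((pos_iff_pos_of_mul_pos (one_pos.trans_le h1)).2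
    (by positivity))).2 Λ0
  have cl : 1 ≤ c * l := by nlinarith
  have e0 : 0 < (c * l)⁻¹ := by positivity
  have sb : ball (0 : ν → ℂ) (c * l)⁻¹ ⊆ ball 0 1 := ball_subset_ball (inv_le_one_of_one_le₀ cl)
  have nr : ∀ w ∈ ball (0 : ν → ℂ) (c * l)⁻¹, Nr q 2 x (σ w).1 := fun w hw i => by
    have w1 : ‖w‖ * (c * l) ≤ 1 := ((lt_inv_mul_iff₀' (by positivity)).1
      (by simpa using mem_ball_zero_iff.1 hw)).le
    have := Tw.osc (B := c * l / 32) (by nlinarith [mul_nonneg a0 (zero_le_one.trans k1)])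
      (s3 _ (T.fib_hol _ (q i))) (fun w _ => q0 _ i) (fun w hw => (lg _ i).trans (by
        have e : L T.toRel Δ (σ w).1 ≤ κ * l := by
          rw [L, (σ w).2, ← fib_xc, s2 w hw]; exact (h2 w hw).2.1
        nlinarith [mul_le_mul_of_nonneg_left e a0])) (w := w) (by nlinarith [norm_nonneg w])
    simp only [s0] at this
    have n0 := norm_nonneg (x (q i))
    have n1 : ‖(σ w).1 (q i) - x (q i)‖ ≤ ‖x (q i)‖ / 2 := this.trans (by nlinarith)
    constructor <;> linarith [norm_le_insert' ((σ w).1 (q i)) (x (q i)),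
      norm_le_insert ((σ w).1 (q i)) (x (q i))]
  have m := Rat.submean_rpow ((s3 f hf).mono sb) p0
  have en : ∀ a : ℂ, ENNReal.ofReal (‖a‖ ^ p) = ‖a‖ₑ ^ p := fun a => by
    rw [← ENNReal.ofReal_rpow_of_nonneg (norm_nonneg _) p0.le, ofReal_norm]
  simp only [en, s0] at m
  have m2 := s4 (fun z => ‖f z‖ₑ ^ p * (ENNReal.ofReal (om z))⁻¹)
    ((hf.cont.measurable.enorm.pow_const p).mul mo.ennreal_ofReal.inv)
  have m3 : ∫⁻ w in ball 0 (c * l)⁻¹, ‖f (σ w)‖ₑ ^ p ≤ ENNReal.ofReal Om *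
      ∫⁻ w in ball 0 1, ‖f (σ w)‖ₑ ^ p * (ENNReal.ofReal (om (σ w)))⁻¹ := by
    rw [← lintegral_const_mul' _ _ ENNReal.ofReal_ne_top]
    refine (setLIntegral_mono' measurableSet_ball fun w hw => ?_).trans (lintegral_mono_set sb)
    rw [mul_left_comm]
    refine le_mul_of_one_le_right' ?_
    rw [← ENNReal.mul_inv_cancel (ENNReal.ofReal_pos.2 O0).ne' ENNReal.ofReal_ne_top]
    gcongr
    exact hO _ (nr w hw) (by rw [← fib_xc, s2 w (sb hw)]; exact (h2 w (sb hw)).2.2.1)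
  rw [Rat.vol_ball e0] at m
  set Y := (c ^ 2) ^ Fintype.card ν * l ^ (N + 2 * Fintype.card ν) * Λ (x.res T.inc) (xc T.toRel x)
    with hY
  have one : 1 ≤ (Real.pi * (c * l)⁻¹ ^ 2) ^ Fintype.card ν * (Y * J) := by
    have e : (Real.pi * (c * l)⁻¹ ^ 2) ^ Fintype.card ν * (Y * J) = Real.pi ^ Fintype.card ν *
        (J * Λ (x.res T.inc) (xc T.toRel x) * l ^ N) := by
      rw [hY, pow_add, pow_mul, mul_pow, inv_pow, inv_pow, mul_pow c, mul_pow (c ^ 2)]
      field_simp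
    rw [e]
    exact one_le_mul_of_one_le_of_one_le (one_le_pow₀ (by linarith [Real.two_le_pi])) h1
  calc _ ≤ ‖f ⟨x, rfl⟩‖ₑ ^ p * (ENNReal.ofReal ((Real.pi * (c * l)⁻¹ ^ 2) ^ Fintype.card ν) *
        (ENNReal.ofReal Y * ENNReal.ofReal J)) := by
        rw [← ENNReal.ofReal_mul (by positivity), ← ENNReal.ofReal_mul (by positivity)]
        exact le_mul_of_one_le_right' (ENNReal.one_le_ofReal.2 one)
    _ ≤ _ := by
        rw [← mul_assoc, ENNReal.ofReal_mul (p := Y) (by positivity), mul_assoc (ENNReal.ofReal Y)]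
        refine (mul_le_mul_left (m.trans m3) _).trans (le_of_eq_of_le ?_
          (mul_le_mul_right (mul_le_mul_right m2 (ENNReal.ofReal Om)) (ENNReal.ofReal Y)))
        ring

/-- the mean value inequality along a section with fixed fibre coordinates -/
theorem sub_tow (h : Tw.Tow (evB B) B.siz Δ Λ κ N) (hd : T.finX.Δ ∣ Δ)
    (hu : IsUnit (up T.toRel Δ)) (hq : ∀ i, IsUnit (q i)) :
    ∃ (A C : ℝ) (n : ℕ), 0 ≤ A ∧ 1 ≤ C ∧
      (∀ x : Pt T.X.O, ‖B.D.π (x.res T.inc)‖ ≤ Real.exp (A * T.X.siz x + A)) ∧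
      ∀ x : Pt T.X.O, ∃ (r : ℝ) (σ : (δ → ℂ) → Pt T.X.O),
        Real.exp (-(A * T.X.siz x + A)) ≤ r ∧ r ≤ 1 ∧ σ (B.D.π (x.res T.inc)) = x ∧
        ContinuousOn σ (ball (B.D.π (x.res T.inc)) r) ∧
        DifferentiableOn ℂ (fun y => T.X.D.π (σ y)) (ball (B.D.π (x.res T.inc)) r) ∧
        ∀ y ∈ ball (B.D.π (x.res T.inc)) r, B.D.π ((σ y).res T.inc) = y ∧
          B.siz ((σ y).res T.inc) ≤ A * T.X.siz x + A ∧ ∀ p : ℝ, 0 < p →
          ∀ (om : Pt T.X.O → ℝ) (Om : ℝ), Measurable om → 0 < Om →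
          (∀ z, Nr q 4 x z → Λ (z.res T.inc) (xc T.toRel z) ≤ C * Λ (x.res T.inc) (xc T.toRel x) →
            om z ≤ Om) →
          ∀ f : T.Fib ((σ y).res T.inc) → ℂ, (T.fib _).Hol f → ‖f ⟨σ y, rfl⟩‖ₑ ^ p ≤
            ENNReal.ofReal (C * L T.toRel Δ x ^ n * Λ (x.res T.inc) (xc T.toRel x) * Om) *
              ∫⁻ z, ‖f z‖ₑ ^ p * (ENNReal.ofReal (om z.1))⁻¹ ∂(T.fib _).μ := by
  obtain ⟨C, n, C1, hC⟩ := fib_mean T h hd hu hq
  obtain ⟨σ, s1, s2⟩ := T.X.lift_near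
  choose u hqu using fun i => (hq i).exists_right_inv
  obtain ⟨v, hv⟩ := hu.exists_right_inv
  obtain ⟨N', N0, α, _, g, j, hg⟩ := h.alg
  have d0 : ∀ x : Pt T.X.O, MvPolynomial.eval₂ (evB B (x.res T.inc)) (xc T.toRel x) Δ ≠ 0 :=
    fun x => by rw [← up_eq]; exact (hu.map x.hom).ne_zero
  have eΛ : ∀ x : Pt T.X.O, Λ (x.res T.inc) (xc T.toRel x) ^ N' =
      ∑ i, ‖x (up T.toRel (g i) * v ^ j)‖ ^ 2 := fun x => by
    refine (hg _ _ (d0 x)).trans (Finset.sum_congr rfl fun i _ => ?_)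
    rw [map_mul, map_pow, norm_mul, norm_pow, norm_inv x hv, up_eq, up_eq, norm_div, norm_pow,
      inv_pow, div_eq_mul_inv]
  have eB : ∀ x : Pt T.X.O, Real.exp (B.siz (x.res T.inc)) =
      ∑ i : Option B.gens, ‖x (i.elim 1 fun a => T.inc a)‖ ^ 2 := fun x => by
    rw [Cht.siz, Real.exp_log (by positivity), Fintype.sum_option, ← Finset.sum_coe_sort B.gens,
      add_comm]
    simp only [Option.elim, map_one, norm_one, one_pow]
    rfl
  have un : ∀ a : T.X.O, IsUnit a → ∀ᶠ K in atTop, ∀ x, ∀ w ∈ Hyp.bal T.X.D K T.X.siz x,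
      ‖σ x w a‖ ≤ 2 * ‖x a‖ := fun a ha =>
    (s2 (fun _ : Unit => a) fun x => ⟨(), (ha.map x.hom).ne_zero⟩).mono fun K hK x w hw =>
      le_of_sq_le_sq (by simpa [mul_pow, show (2 : ℝ) ^ 2 = 4 by norm_num] using hK x w hw)
        (by positivity)
  obtain ⟨A1, a1, hA1⟩ := sizB_le (T := T.toRel)
  obtain ⟨A2, a2, hA2⟩ := md_πB (T := T.toRel)
  obtain ⟨A, ⟨⟨⟨⟨⟨t1, t2⟩, t3⟩, t4⟩, t5⟩, t6⟩, hA⟩ := ((((((s1.and
    (s2 (fun i => up T.toRel (g i) * v ^ j) fun x => by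
      by_contra! e
      exact (pow_pos (h.pos _ _ (d0 x)) N').ne' (by simp only [eΛ, e]; simp))).and
    (s2 (fun i : Option B.gens => i.elim 1 fun a => T.inc a) fun x => ⟨none, by simp⟩)).and
    (un v (.of_mul_eq_one_right _ hv))).and (eventually_all.2 fun i => un _ (hq i))).and
    (eventually_all.2 fun i => un _ (.of_mul_eq_one_right _ (hqu i)))).and
    (eventually_ge_atTop (2 * A1 + A2))).exists
  have A0 : 0 ≤ A := by linarith
  set c1 : ℝ := 4 * Fintype.card α + 1 with hc1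
  set c2 : ℝ := 4 * Fintype.card (Option B.gens) + 2 with hc2
  have k1 : 1 ≤ c1 := le_add_of_nonneg_left (by positivity)
  have k2 : 1 ≤ c2 := by linarith [show (0 : ℝ) ≤ 4 * Fintype.card (Option B.gens) by positivity]
  have k0 := h.one_le
  have k3 := one_le_mul_of_one_le_of_one_le C1 (one_le_pow₀ (n := n) k2)
  refine ⟨A, C * c2 ^ n * (κ * c1), n, A0, one_le_mul_of_one_le_of_one_le k3
    (one_le_mul_of_one_le_of_one_le k0 k1), fun x => (hA2 x).trans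
      (Real.exp_le_exp.2 (by nlinarith [T.X.siz_nonneg x])), fun x => ?_⟩
  have sx := T.X.siz_nonneg x
  have px : T.X.D.π x = Sum.elim (B.D.π (x.res T.inc)) (xc T.toRel x) := funext fun i => by
    rcases i with i | i
    · exact T.π_inl x i
    · exact T.X.π_eq x _
  have mem : ∀ y ∈ ball (B.D.π (x.res T.inc)) (Real.exp (-(A * T.X.siz x + A))),
      Sum.elim y (xc T.toRel x) ∈ Hyp.bal T.X.D A T.X.siz x := fun y hy => by
    rw [Hyp.bal, mem_ball, px, dist_pi_lt_iff (Real.exp_pos _)]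
    rintro (i | i)
    · exact (dist_le_pi_dist y _ i).trans_lt hy
    · simpa using Real.exp_pos _
  have df : Differentiable ℂ fun y : δ → ℂ => (Sum.elim y (xc T.toRel x) : δ ⊕ ν → ℂ) :=
    differentiable_pi.2 fun i => by
      rcases i with i | i
      · exact differentiable_apply i
      · exact differentiable_const _
  refine ⟨_, fun y => σ x (Sum.elim y (xc T.toRel x)), le_rfl,
    Real.exp_le_one_iff.2 (by nlinarith), (congrArg _ px.symm).trans (t1 x).1,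
    (t1 x).2.1.comp df.continuous.continuousOn mem,
    df.differentiableOn.congr fun y hy => ((t1 x).2.2 _ (mem y hy)).1, fun y hy => ?_⟩
  obtain ⟨z1, z2⟩ := (t1 x).2.2 _ (mem y hy)
  have u2 := t2 x _ (mem y hy)
  have u3 := t3 x _ (mem y hy)
  have u4 := t4 x _ (mem y hy)
  have u5 := fun i => t5 i x _ (mem y hy)
  have u6 := fun i => t6 i x _ (mem y hy)
  beta_reduce
  generalize σ x (Sum.elim y (xc T.toRel x)) = z at *
  have zc : xc T.toRel z = xc T.toRel x := funext fun i =>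
    (T.X.π_eq z _).symm.trans (congrFun z1 (Sum.inr i))
  refine ⟨funext fun i => (T.π_inl z i).symm.trans (congrFun z1 (Sum.inl i)),
    (hA1 z).trans (by nlinarith [(abs_le.1 z2).2]), fun p p0 om Om mo O0 hO f hf => ?_⟩
  have q0 : ∀ (x : Pt T.X.O) i, 0 < ‖x (q i)‖ := fun x i =>
    norm_pos_iff.2 ((hq i).map x.hom).ne_zero
  rw [← eΛ, ← eΛ] at u2
  rw [← eB, ← eB] at u3
  have Λx := (h.pos _ _ (d0 x)).le
  have Λz := (h.pos _ _ (d0 z)).le
  have b1 : Λ (z.res T.inc) (xc T.toRel z) ≤ c1 * Λ (x.res T.inc) (xc T.toRel x) := by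
    refine le_of_pow_le_pow_left₀ N0.ne' (by positivity) (u2.trans ?_)
    rw [mul_pow]
    exact mul_le_mul_of_nonneg_right ((by linarith : _ ≤ c1).trans (le_self_pow₀ k1 N0.ne'))
      (by positivity)
  have b4 : κ * Λ (z.res T.inc) (xc T.toRel z) ≤ κ * c1 * Λ (x.res T.inc) (xc T.toRel x) := by
    rw [mul_assoc]; gcongr
  refine (hC _ ⟨z, rfl⟩ p p0 (fun z => om z.1) Om (mo.comp measurable_subtype_coe) O0
    (fun w hw hl => hO _ (fun i => ?_) ?_) f hf).trans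
    (mul_le_mul_left (ENNReal.ofReal_le_ofReal ?_) _)
  · have := u6 i
    rw [norm_inv z (hqu i), norm_inv x (hqu i), ← div_eq_mul_inv, inv_eq_one_div,
      div_le_div_iff₀ (q0 z i) (q0 x i)] at this
    constructor <;> linarith [(hw i).1, (hw i).2, u5 i]
  · rw [w.2, mul_assoc]
    exact (hl.trans b4).trans (le_mul_of_one_le_left (by positivity) k3)
  · have b5 := (le_mul_of_one_le_left Λz k0).trans b4
    have b2 : B.siz (z.res T.inc) ≤ B.siz (x.res T.inc) + (c2 - 2) := by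
      rw [← Real.exp_le_exp, Real.exp_add, mul_comm]
      refine u3.trans (mul_le_mul_of_nonneg_right ?_ (Real.exp_pos _).le)
      linarith [Real.add_one_le_exp (c2 - 2)]
    have b3 : L T.toRel Δ z ≤ c2 * L T.toRel Δ x := by
      rw [norm_inv z hv, norm_inv x hv] at u4
      have n1 := norm_nonneg (xc T.toRel x)
      have n2 := inv_nonneg.2 (norm_nonneg (x (up T.toRel Δ)))
      have := log_near (x := 1 + ‖xc T.toRel x‖ + ‖x (up T.toRel Δ)‖⁻¹) (η := 1)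
        (y := 1 + ‖xc T.toRel z‖ + ‖z (up T.toRel Δ)‖⁻¹) (by positivity) (by positivity)
        (by rw [zc]; linarith)
      nlinarith [L_eq (Δ := Δ) x, L_eq (Δ := Δ) z, two_le_L (Δ := Δ) x]
    have lz := zero_le_two.trans (two_le_L (Δ := Δ) z)
    have lx := zero_le_two.trans (two_le_L (Δ := Δ) x)
    calc _ ≤ C * (c2 * L T.toRel Δ x) ^ n * (κ * c1 * Λ (x.res T.inc) (xc T.toRel x)) * Om := by
          gcongr
      _ = _ := by rw [mul_pow]; ring

/-- the volume of a finite covering for the weight of the extension theorem -/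
theorem vol_fin (h : Fini (Algebra.ofId ℂ B.O) B.z) (b0 : δ → ℂ) : ∫⁻ b, (ENNReal.ofReal
    ((∑ i, ‖B.D.π b i - b0 i‖ ^ 2 + 1) ^ (Fintype.card δ + 1)))⁻¹ ∂B.D.μ ≠ ⊤ := by
  obtain ⟨C, -⟩ := B.cov h
  refine ((C.lint_le (F := fun z => (ENNReal.ofReal ((∑ i, ‖z i - b0 i‖ ^ 2 + 1) ^
    (Fintype.card δ + 1)))⁻¹) (by fun_prop)).trans_lt
    (ENNReal.mul_lt_top (ENNReal.natCast_lt_top _) ?_)).ne
  have := (integrable_rpow_neg_one_add_norm_sq (E := δ → ℂ) (μ := volume)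
    (r := 2 * (Fintype.card δ + 1 : ℕ)) (by simp [Module.finrank_pi_fintype]; linarith)).2
  rw [hasFiniteIntegral_iff_ofReal (.of_forall fun z => by positivity),
    ← lintegral_sub_right_eq_self _ b0] at this
  refine (lintegral_mono fun z => ?_).trans_lt this
  rw [← ENNReal.ofReal_inv_of_pos (by positivity), show -(2 * ((Fintype.card δ + 1 : ℕ) : ℝ)) / 2 =
    -((Fintype.card δ + 1 : ℕ) : ℝ) by ring, Real.rpow_neg (by positivity), Real.rpow_natCast]
  refine ENNReal.ofReal_le_ofReal (inv_anti₀ (by positivity) (pow_le_pow_left₀ (by positivity) ?_ _))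
  rw [add_comm]
  exact add_le_add_left (MP_9ff3e7_ag.F.norm_sq_le_sum (z - b0)) 1

end Xt

end Pool.Agent.Lib.MP_5c318e_ag
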