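import Pool.Agent.Lib.MP_5c318e_ag.Xt.XDefs
import Pool.Agent.Lib.MP_5c318e_ag.Fp.Pw
import Pool.Agent.Lib.MP_5c318e_ag.W.Ext
import Pool.Agent.Lib.MP_5c318e_ag.S.RAlgA
import Pool.Agent.Lib.MP_5c318e_ag.RD.RExt
import Pool.Agent.Lib.MP_5c318e_ag.N.Pol

/-! Pointwise bounds on the diagonal of a fibre power. -/

set_option autoImplicit false
set_option linter.unusedSectionVars false

namespace Pool.Agent.Lib.MP_5c318e_ag

open MeasureTheory Set Filter Topology Metric Function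
open scoped ENNReal

noncomputable section

namespace Xt

/-- a holomorphic function along a continuous map with differentiable coordinates -/
theorem hol_along {ι S E : Type} [Fintype ι] [TopologicalSpace S] [MeasurableSpace S] {D : RD ι S}
    [NormedAddCommGroup E] [NormedSpace ℂ E] {f : S → ℂ} (hf : D.Hol f) {g : E → S} {y : E}
    (hc : ContinuousAt g y) (hd : DifferentiableAt ℂ (fun z => D.π (g z)) y) :
    DifferentiableAt ℂ (fun z => f (g z)) y := by
  refine ((hf (g y)).comp y hd).congr_of_eventuallyEq ?_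
  filter_upwards [hc.eventually ((D.ch (g y)).open_source.mem_nhds (D.mem_src _))] with z hz
  rw [comp_apply, RD.sec_π hz]

/-- a mean value inequality, slot by slot -/
theorem slots {Ω : Type} [MeasurableSpace Ω] {μ : Measure Ω} [SigmaFinite μ]
    {P : (Ω → ℂ) → Prop} {x0 : Ω} {s : ℝ} {w : Ω → ℝ≥0∞} (hw : Measurable w) {E : ℝ≥0∞}
    (hE : E ≠ ⊤) (h : ∀ f, P f → ‖f x0‖ₑ ^ s ≤ E * ∫⁻ x, ‖f x‖ₑ ^ s * w x ∂μ) (n : ℕ) :
    ∀ u : (Fin n → Ω) → ℂ, Measurable u → (∀ k p, P fun x => u (update p k x)) →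
      ‖u fun _ => x0‖ₑ ^ s ≤
        E ^ n * ∫⁻ p, ‖u p‖ₑ ^ s * ∏ k, w (p k) ∂(Measure.pi fun _ => μ) := by
  induction n with
  | zero =>
    intro u _ _
    rw [Measure.pi_of_empty _ fun _ => x0, lintegral_dirac]
    simp
  | succ n ih =>
    intro u hu hP
    have mc : Measurable fun p : Fin n → Ω => (Fin.cons x0 p : Fin (n + 1) → Ω) :=
      measurable_pi_lambda _ fun k => Fin.cases measurable_const (fun j => measurable_pi_apply j) k
    have h1 := ih (fun p => u (Fin.cons x0 p)) (hu.comp mc) fun k p => by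
      simpa only [Fin.cons_update] using hP k.succ (Fin.cons x0 p)
    have e : (Fin.cons x0 fun _ => x0 : Fin (n + 1) → Ω) = fun _ => x0 :=
      funext fun k => Fin.cases rfl (fun _ => rfl) k
    rw [e] at h1
    have mF : Measurable fun p : Fin (n + 1) → Ω => ‖u p‖ₑ ^ s * ∏ k, w (p k) :=
      (hu.enorm.pow_const s).mul
        (Finset.measurable_prod _ fun k _ => hw.comp (measurable_pi_apply k))
    rw [N.lintegral_pi_succ mF, pow_succ, mul_assoc, ← lintegral_const_mul' _ _ hE]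
    refine h1.trans (mul_le_mul_right (lintegral_mono fun p => ?_) _)
    have h2 := h _ (hP 0 (Fin.cons x0 p))
    simp only [Fin.update_cons_zero] at h2
    refine (mul_le_mul_left h2 _).trans ?_
    rw [mul_assoc]
    refine mul_le_mul_right ((lintegral_mul_const_le _ _).trans (lintegral_mono fun x => ?_)) _
    simp only [Fin.prod_univ_succ, Fin.cons_zero, Fin.cons_succ, mul_assoc, le_refl]

variable {δ ν K M : Type} [Fintype δ] [DecidableEq δ] [Fintype ν] [DecidableEq ν]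
  [Field K] [Algebra ℂ K] [Field M] [Algebra ℂ M] [Algebra K M] [IsScalarTower ℂ K M]
  {B : Cht δ K} {T : Rel B ν M} {ρ : Type} [Fintype ρ] [DecidableEq ρ]

theorem cont_dg (R : ℕ) : Continuous (dg T R) :=
  Continuous.subtype_mk ((Pt.continuous_res _).prodMk (continuous_pi fun _ => continuous_id)) _

theorem hol_dg {R : ℕ} {W : T.Pow (Fin R) → ℂ} (h : (T.pow (Fin R)).Hol W) :
    T.X.D.Hol fun x => W (dg T R x) := fun x => by
  have c : ContinuousAt (T.X.D.sec x) (T.X.D.π x) := RD.sec_contAt (T.X.D.mem_tgt x)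
  refine hol_along h (g := fun z => dg T R (T.X.D.sec x z)) ((cont_dg R).continuousAt.comp c) ?_
  refine differentiableAt_pi.2 fun i => ?_
  have hc : ∀ j, DifferentiableAt ℂ (fun z => T.X.D.π (T.X.D.sec x z) j) (T.X.D.π x) := fun j =>
    (differentiableAt_apply (𝕜 := ℂ) j _).congr_of_eventuallyEq
      ((T.X.D.π_sec_ev x).mono fun z hz => congrFun hz j)
  rcases i with i | ⟨k, j⟩
  · refine (hc (Sum.inl i)).congr_of_eventuallyEq (.of_forall fun z => ?_)
    rw [T.pow_π]; exact (T.π_inl _ i).symm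
  · refine (hc (Sum.inr j)).congr_of_eventuallyEq (.of_forall fun z => ?_)
    rw [T.pow_π]; rfl

theorem pole_bd (b0 : δ → ℂ) {X : ℝ} (hX : 1 ≤ X) {a y : δ → ℂ} (ha : ‖a‖ ≤ X) {r : ℝ} (hr : r ≤ 1)
    (hy : y ∈ ball a r) : ∑ i, ‖y i - b0 i‖ ^ 2 + 1 ≤
      Real.exp (Fintype.card δ * (2 + ‖b0‖) ^ 2 + 1) * X ^ 2 := by
  have h1 : ‖y - b0‖ ≤ (2 + ‖b0‖) * X := by
    have : ‖y - a‖ < r := mem_ball_iff_norm.1 hy
    have h2 : ‖y - b0‖ ≤ ‖y - a‖ + ‖a‖ + ‖b0‖ := by
      have : y - b0 = y - a + a - b0 := by abel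
      rw [this]
      exact (norm_sub_le _ _).trans (add_le_add_left (norm_add_le _ _) _)
    nlinarith [norm_nonneg b0]
  have h2 : ∑ i, ‖y i - b0 i‖ ^ 2 ≤ ∑ _i : δ, ((2 + ‖b0‖) * X) ^ 2 := Finset.sum_le_sum fun i _ =>
    pow_le_pow_left₀ (norm_nonneg _) ((norm_le_pi_norm (y - b0) i).trans h1) 2
  rw [Finset.sum_const, Finset.card_univ, nsmul_eq_mul, mul_pow] at h2
  have h3 := Real.add_one_le_exp (Fintype.card δ * (2 + ‖b0‖) ^ 2 + 1)
  have h4 : 1 ≤ X ^ 2 := one_le_pow₀ hX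
  nlinarith

/-- pointwise bound on the diagonal -/
theorem Data.diag (d : Data T ρ) (b0 : δ → ℂ) : ∃ A' : ℝ, 0 ≤ A' ∧ ∀ (R : ℕ) (η Θ : ℝ), 0 ≤ η → 0 ≤ Θ →
    ∀ W : T.Pow (Fin R) → ℂ, (T.pow (Fin R)).Hol W →
    gI T d.om d.t d.φB η b0 R W ≤ ENNReal.ofReal Θ → ∀ x,
    ‖W (dg T R x)‖ ^ (2 * (1 - d.t)) ≤
      Θ * Real.exp (R * d.Ψ x + η * R * (d.A * d.φ x + d.A) + (A' * d.φ x + A')) := by
  set N := Fintype.card δ with hN
  set c : ℝ := N * (2 + ‖b0‖) ^ 2 + 1 with hc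
  have A0 := d.A0
  refine ⟨(4 * N + 2) * d.A + (N + 1) * c, by positivity, fun R η Θ hη hΘ W hW hI x => ?_⟩
  obtain ⟨r, σ, r1, r2, s1, s2, s3, s4⟩ := d.sub x
  set a := B.D.π (x.res T.inc) with ha
  set L := d.A * d.φ x + d.A with hL
  have φ0 := d.φ0 x
  have L0 : 0 ≤ L := by positivity
  have r0 : 0 < r := (Real.exp_pos _).trans_le r1
  have s0 : 0 < 2 * (1 - d.t) := by linarith [d.t1]
  have mo : Measurable d.om := d.lp.measurable
  have mb : Measurable (Rel.Pow.b : T.Pow (Fin R) → Pt B.O) := Rel.Pow.cont_b.measurable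
  have cq : Continuous fun b : Pt B.O => (∑ i, ‖B.D.π b i - b0 i‖ ^ 2 + 1) ^ (N + 1) := by
    have := B.D.cont_π
    fun_prop
  have mG : Measurable fun q : T.Pow (Fin R) => ‖W q‖ₑ ^ (2 * (1 - d.t)) *
      (ENNReal.ofReal ((∏ k, d.om (q.p k)) * (∑ i, ‖B.D.π q.b i - b0 i‖ ^ 2 + 1) ^ (N + 1)))⁻¹ *
      ENNReal.ofReal (Real.exp (-(η * R * d.φB q.b))) :=
    ((hW.cont.measurable.enorm.pow_const _).mul ((Finset.measurable_prod _ fun k _ =>
      mo.comp (Rel.Pow.cont_p k).measurable).mul (cq.measurable.comp mb)).ennreal_ofReal.inv).mul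
      ((d.mB.comp mb).const_mul _).neg.exp.ennreal_ofReal
  obtain ⟨mJ, eJ⟩ := T.pow_fubini mG
  have h1 := (RD.lintegral_sec_le (D := B.D) (σ := fun y => (σ y).res T.inc) isOpen_ball
    ((Pt.continuous_res _).comp_continuousOn s2) (fun y hy => (s4 y hy).1) mJ).trans
    (eJ.symm.le.trans hI)
  set Z : ℝ := (Real.exp c * Real.exp L ^ 2) ^ (N + 1) * Real.exp (η * R * L) with hZ
  set E : ℝ≥0∞ := ENNReal.ofReal (Real.exp (d.Ψ x)) ^ R * ENNReal.ofReal Z with hE
  have Et : E ≠ ⊤ :=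
    ENNReal.mul_ne_top (ENNReal.pow_ne_top ENNReal.ofReal_ne_top) ENNReal.ofReal_ne_top
  have h2 := Rat.submean_rpow (G := fun y => W (dg T R (σ y))) (x := a) (r := r)
    (fun y hy => (hol_along (hol_dg hW) (s2.continuousAt (isOpen_ball.mem_nhds hy))
      (s3.differentiableAt (isOpen_ball.mem_nhds hy))).differentiableWithinAt) s0
  have h3 : ENNReal.ofReal (‖W (dg T R x)‖ ^ (2 * (1 - d.t))) * volume (ball (0 : δ → ℂ) r) ≤
      E * ENNReal.ofReal Θ := by
    rw [s1] at h2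
    refine h2.trans (le_trans ?_ (mul_le_mul_right h1 E))
    rw [← lintegral_const_mul' _ _ Et]
    refine setLIntegral_mono' measurableSet_ball fun y hy => ?_
    obtain ⟨y1, y2, y3⟩ := s4 y hy
    have k := slots (μ := (T.fib ((σ y).res T.inc)).μ) (P := (T.fib ((σ y).res T.inc)).Hol)
      (x0 := ⟨σ y, rfl⟩) (w := fun p => (ENNReal.ofReal (d.om p.1))⁻¹)
      (mo.comp measurable_subtype_coe).ennreal_ofReal.inv ENNReal.ofReal_ne_top y3 R
      (fun p => W (Rel.Pow.mk _ p)) (hW.cont.comp (Rel.Pow.cont_mk _)).measurable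
      fun k p => T.slice hW _ p k
    rw [← ENNReal.ofReal_rpow_of_nonneg (norm_nonneg _) s0.le, ofReal_norm]
    refine le_trans k ?_
    rw [hE, mul_assoc, ← lintegral_const_mul' _ _ ENNReal.ofReal_ne_top]
    refine mul_le_mul_right (lintegral_mono fun p => ?_) _
    simp only [Rel.Pow.mk_b, Rel.Pow.mk_p, y1]
    have q0 : 0 < (∑ i, ‖y i - b0 i‖ ^ 2 + 1) ^ (N + 1) := by positivity
    rw [RD.WP.ofReal_inv_mul (Finset.prod_nonneg fun k _ => d.lp.nonneg _) q0,
      ENNReal.ofReal_prod_of_nonneg fun k _ => d.lp.nonneg _,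
      ENNReal.prod_inv_distrib fun _ _ _ _ _ => Or.inr ENNReal.ofReal_ne_top,
      ← mul_assoc (‖_‖ₑ ^ _), mul_assoc _ (ENNReal.ofReal _) (ENNReal.ofReal _),
      mul_left_comm (ENNReal.ofReal Z), ← ENNReal.ofReal_mul (by positivity),
      ← ENNReal.ofReal_mul (by positivity)]
    refine le_mul_of_one_le_right' (ENNReal.one_le_ofReal.2 ?_)
    rw [Real.exp_neg, ← mul_inv, ← div_eq_mul_inv, one_le_div (by positivity)]
    exact mul_le_mul (pow_le_pow_left₀ (by positivity)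
      (pole_bd b0 (Real.one_le_exp L0) (d.siz x) r2 hy) _)
      (Real.exp_le_exp.2 (mul_le_mul_of_nonneg_left y2 (by positivity))) (by positivity)
      (by positivity)
  rw [Rat.vol_ball r0, hE, ← ENNReal.ofReal_pow (Real.exp_pos _).le,
    ← ENNReal.ofReal_mul (by positivity), ← ENNReal.ofReal_mul (by positivity),
    ← ENNReal.ofReal_mul (by positivity), ENNReal.ofReal_le_ofReal_iff (by positivity)] at h3
  have h4 : 1 ≤ (Real.pi * r ^ 2) ^ N * (Real.exp L ^ 2) ^ N := by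
    rw [← mul_pow]
    refine one_le_pow₀ ?_
    have : 1 ≤ r * Real.exp L := by
      have := mul_le_mul_of_nonneg_right r1 (Real.exp_pos L).le
      rwa [← Real.exp_add, neg_add_cancel, Real.exp_zero] at this
    have h5 : 1 ≤ (r * Real.exp L) ^ 2 := one_le_pow₀ this
    nlinarith [Real.pi_gt_three]
  calc _ ≤ ‖W (dg T R x)‖ ^ (2 * (1 - d.t)) * (Real.pi * r ^ 2) ^ N * (Real.exp L ^ 2) ^ N := by
        rw [mul_assoc]; exact le_mul_of_one_le_right (by positivity) h4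
    _ ≤ Real.exp (d.Ψ x) ^ R * Z * Θ * (Real.exp L ^ 2) ^ N :=
        mul_le_mul_of_nonneg_right h3 (by positivity)
    _ = Θ * Real.exp (R * d.Ψ x + η * R * L + ((4 * N + 2) * L + (N + 1) * c)) := by
        rw [hZ]
        simp only [← Real.exp_nat_mul, ← Real.exp_add, mul_comm _ Θ, mul_assoc]
        congr 2
        push_cast
        ring
    _ ≤ _ := by
        refine mul_le_mul_of_nonneg_left (Real.exp_le_exp.2 (add_le_add_right ?_ _)) hΘ
        have : 0 ≤ (N + 1) * c * d.φ x := by positivity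
        rw [hL]
        nlinarith

end Xt

end

end Pool.Agent.Lib.MP_5c318e_ag
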