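import Pool.Agent.Lib.MP_5c318e_ag.Fp.Coef
import Pool.Agent.Lib.MP_5c318e_ag.Xt.XDefs

/-! A holomorphic function on a fibre power that is a tensor in holomorphic functions `s i` on
almost every fibre has locally bounded coefficients near a fibre where the `s i` are independent. -/

set_option autoImplicit false
set_option linter.unusedSectionVars false

namespace Pool.Agent.Lib.MP_5c318e_ag

open MeasureTheory Set Filter Topology Function Matrix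

variable {δ ν K M : Type} [Fintype δ] [DecidableEq δ] [Fintype ν] [DecidableEq ν]
  [Field K] [Algebra ℂ K] [Field M] [Algebra ℂ M] [Algebra K M] {B : Cht δ K}
  {κ : Type} [Fintype κ] [DecidableEq κ]

namespace Xt

theorem tower (T : Rel B ν M) : IsScalarTower ℂ K M := IsScalarTower.of_algebraMap_eq fun c => by
  have := T.inc_eq (algebraMap ℂ B.O c)
  rw [AlgHom.commutes] at this
  exact this

variable {T : Rel B ν M} {ρ : Type} [Fintype ρ] [DecidableEq ρ] {s : ρ → Pt T.X.O → ℂ}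
  {U : T.Pow κ → ℂ}

theorem mvX_hol {f : Pt T.X.O → ℂ} (hf : T.X.D.Hol f) (x : Pt T.X.O) :
    AnalyticAt ℂ (fun y => f (T.mvX x y)) (B.D.π (x.res T.inc)) :=
  have := tower T
  (RD.WP.ana hf x).comp_of_eq (Fp.ana_elim _ _) (T.elim_X x)

theorem coef_locH (hs : ∀ i, T.X.D.Hol (s i)) (hU : (T.pow κ).Hol U) (b0 : Pt B.O)
    (hi : ∀ a : ρ → ℂ, (∀ p : T.Fib b0, ∑ i, a i * s i p.1 = 0) → a = 0) :
    ∃ A : (δ → ℂ) → (κ → ρ) → ℂ, (∀ I, AnalyticAt ℂ (fun y => A y I) (B.D.π b0)) ∧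
      ∀ᶠ b in 𝓝 b0, ∀ a : (κ → ρ) → ℂ,
        (∀ q : T.Pow κ, q.b = b → U q = ∑ I, a I * ∏ k, s (I k) (q.p k)) → a = A (B.D.π b) := by
  have := tower T
  obtain ⟨x, hx⟩ := Fp.exists_pts (φ := fun i (p : T.Fib b0) => s i p.1) hi
  let Mx : (δ → ℂ) → Matrix ρ ρ ℂ := fun y => Matrix.of fun j i => s i (T.mvX (x j).1 y)
  have a1 : Fl.AnM Mx (B.D.π b0) := fun j i => by
    have := mvX_hol (hs i) (x j).1
    rwa [(x j).2] at this
  have a2 : (Mx (B.D.π b0)).det ≠ 0 := by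
    convert hx using 4 with j i
    have := T.mvX_self (x j).1
    rw [(x j).2] at this
    rw [this]
  refine ⟨fun y => Fl.tp κ (Mx y)⁻¹ *ᵥ fun J => U (T.mv (Rel.Pow.mk b0 fun k => x (J k)) y),
    fun I => ?_, ?_⟩
  · simp only [mulVec, dotProduct, Fl.tp_apply]
    exact Finset.analyticAt_fun_sum _ fun J _ => (Finset.analyticAt_fun_prod _ fun k _ =>
      a1.inv a2 _ _).fun_mul (T.mv_ana hU (Rel.Pow.mk b0 fun k => x (J k)))
  have t := B.D.cont_π.tendsto b0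
  filter_upwards [t.eventually (a1.det_ev a2),
    t.eventually (eventually_all.2 fun J : κ → ρ => T.mv_b (Rel.Pow.mk b0 fun k => x (J k))),
    t.eventually (eventually_all.2 fun J : κ → ρ => T.mv_p (Rel.Pow.mk b0 fun k => x (J k))),
    (B.D.ch b0).open_source.mem_nhds (B.D.mem_src b0)] with b h1 h2 h3 h4 a ha
  have : (fun J : κ → ρ => U (T.mv (Rel.Pow.mk b0 fun k => x (J k)) (B.D.π b))) =
      Fl.tp κ (Mx (B.D.π b)) *ᵥ a := by
    funext J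
    rw [ha _ ((h2 J).trans (RD.sec_π h4))]
    simp only [mulVec, dotProduct, Fl.tp_apply, h3 J]
    exact Finset.sum_congr rfl fun I _ => mul_comm _ _
  rw [this, mulVec_mulVec, ← Fl.tp_mul, nonsing_inv_mul _ h1.isUnit, Fl.tp_one, one_mulVec]

/-- near a fibre on which the `s i` are independent the tensor form holds on all fibres, with
bounded coefficients -/
theorem coef_bdd (hs : ∀ i, T.X.D.Hol (s i)) (hU : (T.pow κ).Hol U)
    (ha : ∀ᵐ b ∂B.D.μ, ∃ a : (κ → ρ) → ℂ, ∀ x : κ → T.Fib b,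
      U (Rel.Pow.mk b x) = ∑ I, a I * ∏ k, s (I k) (x k).1) (b0 : Pt B.O)
    (hi : ∀ a : ρ → ℂ, (∀ p : T.Fib b0, ∑ i, a i * s i p.1 = 0) → a = 0) :
    ∃ C : ℝ, 0 ≤ C ∧ ∀ᶠ b in 𝓝 b0, ∃ a : (κ → ρ) → ℂ, (∀ I, ‖a I‖ ≤ C) ∧ ∀ x : κ → T.Fib b,
      U (Rel.Pow.mk b x) = ∑ I, a I * ∏ k, s (I k) (x k).1 := by
  have := tower T
  have := B.D.openPos
  have hd := Measure.dense_of_ae ha
  obtain ⟨A, h1, h2⟩ := coef_locH hs hU b0 hi
  have t0 := B.D.cont_π.tendsto b0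
  have cA : ContinuousAt A (B.D.π b0) := continuousAt_pi.2 fun I => (h1 I).continuousAt
  refine ⟨‖A (B.D.π b0)‖ + 1, by positivity, ?_⟩
  filter_upwards [h2.eventually_nhds, t0.eventually (eventually_all.2 fun I =>
    (h1 I).eventually_analyticAt), t0.eventually (cA.norm.eventually (gt_mem_nhds (lt_add_one _)))]
    with b h3 h4 h5
  refine ⟨A (B.D.π b), fun I => (norm_le_pi_norm _ I).trans h5.le, fun x => ?_⟩
  set q := Rel.Pow.mk b x with hq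
  have t := B.D.cont_π.tendsto q.b
  have t1 := (T.mv_tend q).comp t
  refine tendsto_nhds_unique_of_frequently_eq ((hU.cont.tendsto q).comp t1)
    (tendsto_finsetSum _ fun I _ => ((h4 I).continuousAt.tendsto.comp t).mul
      (tendsto_finsetProd _ fun k _ => (((hs (I k)).cont.comp
        (Rel.Pow.cont_p k)).tendsto q).comp t1)) ?_
  refine ((mem_closure_iff_frequently.1 (hd q.b)).and_eventually (h3.and ((t.eventually
    (T.mv_b q)).and ((B.D.ch q.b).open_source.mem_nhds (B.D.mem_src _))))).mono ?_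
  rintro b' ⟨⟨a, ha⟩, h3, h4, h5⟩
  have h6 : ∀ q : T.Pow κ, q.b = b' → U q = ∑ I, a I * ∏ k, s (I k) (q.p k) := by
    rintro q rfl
    exact ha q.f
  simp only [Function.comp_apply]
  rw [← h3 a h6]
  exact h6 _ (h4.trans (RD.sec_π h5))

theorem ten_le {a : (κ → ρ) → ℂ} {C : ℝ} (h : ∀ I, ‖a I‖ ≤ C) (v : ρ → ℂ) :
    ‖∑ I, a I * ∏ k, v (I k)‖ ^ 2 ≤
      C ^ 2 * (Fintype.card ρ) ^ Fintype.card κ * (∑ i, ‖v i‖ ^ 2) ^ Fintype.card κ := by
  have h1 : ‖∑ I, a I * ∏ k, v (I k)‖ ≤ C * (∑ i, ‖v i‖) ^ Fintype.card κ := by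
    rw [← Finset.card_univ, ← Finset.prod_const, Finset.prod_univ_sum, Finset.mul_sum,
      Fintype.piFinset_univ]
    refine (norm_sum_le _ _).trans (Finset.sum_le_sum fun I _ => ?_)
    rw [norm_mul, norm_prod]
    exact mul_le_mul_of_nonneg_right (h I) (by positivity)
  have h2 : (∑ i, ‖v i‖) ^ 2 ≤ Fintype.card ρ * ∑ i, ‖v i‖ ^ 2 := by
    simpa using sq_sum_le_card_mul_sum_sq (s := Finset.univ) (f := fun i => ‖v i‖)
  calc _ ≤ (C * (∑ i, ‖v i‖) ^ Fintype.card κ) ^ 2 := by gcongr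
    _ = C ^ 2 * ((∑ i, ‖v i‖) ^ 2) ^ Fintype.card κ := by ring
    _ ≤ C ^ 2 * (Fintype.card ρ * ∑ i, ‖v i‖ ^ 2) ^ Fintype.card κ := by gcongr
    _ = _ := by rw [mul_pow, mul_assoc]

/-- the local bound on the diagonal -/
theorem loc_boundA (hs : ∀ i, T.X.D.Hol (s i)) (hU : (T.pow κ).Hol U)
    (ha : ∀ᵐ b ∂B.D.μ, ∃ a : (κ → ρ) → ℂ, ∀ x : κ → T.Fib b,
      U (Rel.Pow.mk b x) = ∑ I, a I * ∏ k, s (I k) (x k).1) (b0 : Pt B.O)
    (hi : ∀ a : ρ → ℂ, (∀ p : T.Fib b0, ∑ i, a i * s i p.1 = 0) → a = 0) :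
    ∃ C : ℝ, ∀ᶠ b in 𝓝 b0, ∀ x : T.Fib b,
      ‖U (Rel.Pow.mk b fun _ => x)‖ ^ 2 ≤ C * (∑ i, ‖s i x.1‖ ^ 2) ^ Fintype.card κ := by
  obtain ⟨C, -, h⟩ := coef_bdd hs hU ha b0 hi
  refine ⟨C ^ 2 * (Fintype.card ρ) ^ Fintype.card κ, h.mono ?_⟩
  rintro b ⟨a, h1, h2⟩ x
  rw [h2]
  exact ten_le h1 fun i => s i x.1

variable [IsScalarTower ℂ K M] in
/-- local bound at a fibre on which the `s i` are independent -/
theorem loc_bound {s : ρ → Pt T.X.O → ℂ} (hs : ∀ i, T.X.D.Hol (s i)) {R : ℕ}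
    {W : T.Pow (Fin R) → ℂ} (h : (T.pow (Fin R)).Hol W)
    (ha : ∀ᵐ b ∂B.D.μ, ∃ a : (Fin R → ρ) → ℂ, ∀ x : Fin R → T.Fib b,
      W (Rel.Pow.mk b x) = ∑ I, a I * ∏ k, s (I k) (x k).1) (b0 : Pt B.O)
    (hi : ∀ a : ρ → ℂ, (∀ p : T.Fib b0, ∑ i, a i * s i p.1 = 0) → a = 0) :
    ∃ C : ℝ, ∀ᶠ b in 𝓝 b0, ∀ x : T.Fib b, ‖W (dg T R x.1)‖ ^ 2 ≤ C * (∑ i, ‖s i x.1‖ ^ 2) ^ R := by
  obtain ⟨C, hC⟩ := loc_boundA hs h ha b0 hi
  refine ⟨C, hC.mono fun b hb x => ?_⟩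
  have := hb x
  rw [Fintype.card_fin] at this
  rwa [show dg T R x.1 = Rel.Pow.mk b fun _ => x from Rel.Pow.ext x.2 fun _ => rfl]

end Xt

end Pool.Agent.Lib.MP_5c318e_ag
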