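import Pool.Agent.Lib.MP_5c318e_ag.Xt.XDefs
import Pool.Agent.Lib.MP_5c318e_ag.Xt.It
import Pool.Agent.Lib.MP_5c318e_ag.W.HL
import Pool.Agent.Lib.MP_5c318e_ag.Fp.Pw
import Pool.Agent.Lib.MP_5c318e_ag.S.SatPi
import Pool.Agent.Lib.MP_5c318e_ag.N.Det

/-! Extension of a tensor power from one fibre of the fibre power, with a global bound. -/

set_option autoImplicit false
set_option linter.unusedSectionVars false

namespace Pool.Agent.Lib.MP_5c318e_ag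

open MeasureTheory Set Filter Topology Metric
open scoped ENNReal

noncomputable section

namespace Xt

/-- one sheet over a small ball -/
theorem sheet {ι S : Type} [Fintype ι] [TopologicalSpace S] [MeasurableSpace S] [BorelSpace S]
    [T2Space S] (D : RD ι S) (x : S) {W : Set S} (hW : W ∈ 𝓝 x) :
    ∃ (r : ℝ) (V : Set S), 0 < r ∧ IsCompact V ∧ V ⊆ W ∧ x ∈ V ∧
      (∀ y, ∑ i, ‖D.π y i - D.π x i‖ ^ 2 < r → ∀ᶠ z in 𝓝 y, (z ∈ V ↔ y ∈ V)) ∧
      ∀ y ∈ V, ∑ i, ‖D.π y i - D.π x i‖ ^ 2 ≤ Fintype.card ι * r := by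
  obtain ⟨e, e0, he⟩ := D.exists_rad x hW
  have ht : closedBall (D.π x) e ⊆ (D.ch x).target := he.trans inter_subset_left
  have hc := RD.sec_cpt (isCompact_closedBall (D.π x) e) ht
  refine ⟨e ^ 2, _, by positivity, hc, ?_, ⟨_, mem_closedBall_self e0.le, D.sec_self x⟩,
    fun y hy => ?_, ?_⟩
  · rintro _ ⟨z, hz, rfl⟩
    exact (he hz).2
  · by_cases h : y ∈ D.sec x '' closedBall (D.π x) e
    · have h1 : D.π y ∈ ball (D.π x) e := by
        rw [mem_ball, dist_pi_lt_iff e0]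
        intro i
        rw [dist_eq_norm]
        refine lt_of_pow_lt_pow_left₀ 2 e0.le (lt_of_le_of_lt ?_ hy)
        exact Finset.single_le_sum (f := fun i => ‖D.π y i - D.π x i‖ ^ 2)
          (fun _ _ => by positivity) (Finset.mem_univ i)
      filter_upwards [(D.ch x).open_source.mem_nhds (RD.sec_sub ht h),
        D.cont_π.continuousAt.eventually (isOpen_ball.mem_nhds h1)] with z z1 z2
      exact iff_of_true ⟨D.π z, ball_subset_closedBall z2, RD.sec_π z1⟩ h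
    · filter_upwards [hc.isClosed.isOpen_compl.mem_nhds h] with z hz
      exact iff_of_false hz h
  · rintro _ ⟨z, hz, rfl⟩
    rw [RD.π_sec (ht hz), ← nsmul_eq_mul, ← Finset.card_univ, ← Finset.sum_const]
    refine Finset.sum_le_sum fun i _ => pow_le_pow_left₀ (norm_nonneg _) ?_ 2
    rw [← dist_eq_norm]
    exact (dist_le_pi_dist z _ i).trans hz

theorem inv_prod {κ : Type} [Fintype κ] {u : κ → ℝ} (hu : ∀ k, 0 ≤ u k) (c : ℝ) :
    (ENNReal.ofReal ((∏ k, u k) * c))⁻¹ =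
      (∏ k, (ENNReal.ofReal (u k))⁻¹) * (ENNReal.ofReal c)⁻¹ := by
  rw [ENNReal.ofReal_mul (Finset.prod_nonneg fun k _ => hu k),
    ENNReal.mul_inv (Or.inr ENNReal.ofReal_ne_top) (Or.inl ENNReal.ofReal_ne_top),
    ENNReal.ofReal_prod_of_nonneg fun k _ => hu k,
    ENNReal.prod_inv_distrib fun _ _ _ _ _ => Or.inr ENNReal.ofReal_ne_top]

theorem ten_cs {κ ρ : Type} [Fintype κ] [DecidableEq κ] [Fintype ρ] (a : (κ → ρ) → ℂ)
    (v : κ → ρ → ℂ) : ‖∑ I, a I * ∏ k, v k (I k)‖ ^ 2 ≤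
      (∑ I, ‖a I‖ ^ 2 + 1) * ∏ k, ∑ i, ‖v k i‖ ^ 2 := by
  have h1 : ‖∑ I, a I * ∏ k, v k (I k)‖ ≤ ∑ I, ‖a I‖ * ∏ k, ‖v k (I k)‖ :=
    (norm_sum_le _ _).trans_eq (Finset.sum_congr rfl fun I _ => by rw [norm_mul, norm_prod])
  refine (pow_le_pow_left₀ (norm_nonneg _) h1 2).trans
    ((Finset.sum_mul_sq_le_sq_mul_sq _ _ _).trans ?_)
  rw [Finset.prod_univ_sum, Fintype.piFinset_univ]
  simp only [← Finset.prod_pow]
  exact mul_le_mul_of_nonneg_right (by linarith) (by positivity)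

theorem ten_pt {κ : Type} [Fintype κ] {u : κ → ℝ} (hu : ∀ k, 0 ≤ u k) (c : ℝ) (v : κ → ℂ) {s : ℝ}
    (hs : 0 ≤ s) : ‖∏ k, v k‖ₑ ^ s * (ENNReal.ofReal ((∏ k, u k) * c))⁻¹ =
      (∏ k, ‖v k‖ₑ ^ s * (ENNReal.ofReal (u k))⁻¹) * (ENNReal.ofReal c)⁻¹ := by
  have : ‖∏ k, v k‖ₑ = ∏ k, ‖v k‖ₑ := by
    simp only [← ofReal_norm, norm_prod]
    exact ENNReal.ofReal_prod_of_nonneg fun _ _ => norm_nonneg _
  rw [inv_prod hu, Finset.prod_mul_distrib, ENNReal.prod_rpow_of_nonneg hs, this, mul_assoc]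

/-- the pointwise comparison behind the closure property -/
theorem close_pt {κ : Type} [Fintype κ] {g : ℂ} {A t : ℝ} (hA : 0 < A) (ht : 0 ≤ t) {σ : κ → ℝ}
    (hσ : ∀ k, 0 ≤ σ k) (h : ‖g‖ ^ 2 ≤ A * ∏ k, σ k) :
    ∏ k, ENNReal.ofReal (σ k) ^ (-t) ≤ ENNReal.ofReal A ^ t * ‖g‖ₑ ^ (-(2 * t)) := by
  have A0 : ENNReal.ofReal A ^ t ≠ 0 := by simp [hA]
  have At : ENNReal.ofReal A ^ t ≠ ⊤ := ENNReal.rpow_ne_top_of_nonneg ht ENNReal.ofReal_ne_top
  have h1 : ‖g‖ₑ ^ (2 * t) ≤ ENNReal.ofReal A ^ t * ENNReal.ofReal (∏ k, σ k) ^ t := by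
    rw [← ENNReal.mul_rpow_of_nonneg _ _ ht, ← ENNReal.ofReal_mul hA.le, ENNReal.rpow_mul,
      ← RD.WP.ofReal_sq]
    exact ENNReal.rpow_le_rpow (ENNReal.ofReal_le_ofReal h) ht
  rw [ENNReal.prod_rpow_of_ne_top fun _ _ => ENNReal.ofReal_ne_top,
    ← ENNReal.ofReal_prod_of_nonneg fun k _ => hσ k, ENNReal.rpow_neg, ENNReal.rpow_neg]
  refine le_trans (le_of_eq ?_) (mul_le_mul_right (ENNReal.inv_le_inv.2 h1) _)
  rw [ENNReal.mul_inv (Or.inl A0) (Or.inl At), ← mul_assoc, ENNReal.mul_inv_cancel A0 At, one_mul]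

variable {δ ν K M : Type} [Fintype δ] [DecidableEq δ] [Fintype ν] [DecidableEq ν]
  [Field K] [Algebra ℂ K] [Field M] [Algebra ℂ M] [Algebra K M] [IsScalarTower ℂ K M]
  {B : Cht δ K} {T : Rel B ν M} {ρ : Type} [Fintype ρ] [DecidableEq ρ]
  {κ : Type} [Fintype κ] [DecidableEq κ]

theorem lp_pow {om : Pt T.X.O → ℝ} (h : T.X.D.LP om) :
    (T.pow κ).LP fun q => ∏ k, om (q.p k) :=
  RD.lp_prod _ fun k _ => by
    obtain ⟨φ, h1, h2, h3, h4⟩ := h
    exact ⟨fun n q => φ n (q.p k), fun n => T.pow_psh_p (h1 n) k, fun n q => h2 n _,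
      fun n q => h3 n _, fun q => h4 _⟩

theorem hol_ten {U : Pt T.X.O → ℂ} (h : T.X.D.Hol U) :
    (T.pow κ).Hol fun q => ∏ k, U (q.p k) := fun q =>
  (Finset.analyticAt_fun_prod (f := fun k z => U (((T.pow κ).sec q z).p k)) _
    fun k _ => RD.WP.ana (T.pow_hol_p h k) q).differentiableAt

theorem hol_fib {f : Pt T.X.O → ℂ} (h : T.X.D.Hol f) (b : Pt B.O) :
    (T.fib b).Hol fun p => f p.1 := fun p => by
  have := T.slice (κ := Unit) (T.pow_hol_p h ()) b (fun _ => p) () p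
  simpa using this

/-- the integral of a tensor power against a weight on the base -/
theorem int_ten {om : Pt T.X.O → ℝ} (hom : T.X.D.LP om) {t : ℝ} (ht : t < 1) {U : Pt T.X.O → ℂ}
    (hU : Continuous U) {g : Pt B.O → ℝ≥0∞} (hg : Measurable g) :
    ∫⁻ q, (∏ k, ‖U (q.p k)‖ₑ ^ (2 * (1 - t)) * (ENNReal.ofReal (om (q.p k)))⁻¹) * g q.b
        ∂(T.pow κ).μ =
      ∫⁻ b, fI T om t b (fun x => U x.1) ^ Fintype.card κ * g b ∂B.D.μ := by
  have m : Measurable fun x => ‖U x‖ₑ ^ (2 * (1 - t)) * (ENNReal.ofReal (om x))⁻¹ :=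
    (hU.measurable.enorm.pow_const _).mul hom.measurable.ennreal_ofReal.inv
  have m2 : Measurable fun q : T.Pow κ =>
      (∏ k, ‖U (q.p k)‖ₑ ^ (2 * (1 - t)) * (ENNReal.ofReal (om (q.p k)))⁻¹) * g q.b :=
    (Finset.measurable_prod _ fun k _ => m.comp (Rel.Pow.cont_p k).measurable).mul
      (hg.comp Rel.Pow.cont_b.measurable)
  rw [(T.pow_fubini m2).2]
  refine lintegral_congr fun b => ?_
  have m' : Measurable fun x : T.Fib b =>
      ‖U x.1‖ₑ ^ (2 * (1 - t)) * (ENNReal.ofReal (om x.1))⁻¹ := m.comp measurable_subtype_coe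
  have := N.lintegral_pi_prod (ν := (T.fib b).μ) (fun _ : κ => _) fun _ => m'
  rw [Finset.prod_const, Finset.card_univ] at this
  rw [fI, ← this, ← lintegral_mul_const _ (N.measurable_prod_apply fun _ => m')]
  rfl

/-- tensors on almost every fibre -/
def Ten (d : Data T ρ) (κ : Type) [Fintype κ] [DecidableEq κ] (W : T.Pow κ → ℂ) : Prop :=
  ∀ᵐ b ∂B.D.μ, ∃ a : (κ → ρ) → ℂ, ∀ x : κ → T.Fib b,
    W (Rel.Pow.mk b x) = ∑ I, a I * ∏ k, d.s (I k) (x k).1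

theorem Ten.close {d : Data T ρ} {G F : T.Pow κ → ℂ} (hG : (T.pow κ).Hol G)
    (hF : (T.pow κ).Hol F) (h : Ten d κ G) {c : Pt B.O → ℝ} (hc : Measurable c)
    (hi : ∫⁻ q, ‖F q‖ₑ ^ (2 : ℝ) * ‖G q‖ₑ ^ (-(2 * d.t)) *
      (ENNReal.ofReal ((∏ k, d.om (q.p k)) * c q.b))⁻¹ ∂(T.pow κ).μ ≠ ⊤) : Ten d κ F := by
  have m : Measurable fun q : T.Pow κ => ‖F q‖ₑ ^ (2 : ℝ) * ‖G q‖ₑ ^ (-(2 * d.t)) *
      (ENNReal.ofReal ((∏ k, d.om (q.p k)) * c q.b))⁻¹ :=
    ((hF.cont.measurable.enorm.pow_const _).mul (hG.cont.measurable.enorm.pow_const _)).mul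
      ((lp_pow d.lp).measurable.mul (hc.comp Rel.Pow.cont_b.measurable)).ennreal_ofReal.inv
  obtain ⟨m1, e1⟩ := T.pow_fubini m
  rw [e1] at hi
  filter_upwards [ae_lt_top m1 hi, d.sat, h] with b h1 h2 ⟨a, ha⟩
  have cs : ∀ i, Continuous fun x : T.Fib b => d.s i x.1 := fun i =>
    (d.hol i).cont.comp continuous_subtype_val
  refine (T.fib b).sat_pi (fun i => hol_fib (d.hol i) b)
    (ω := fun x => ENNReal.ofReal (∑ i, ‖d.s i x.1‖ ^ 2) ^ (-d.t) * (ENNReal.ofReal (d.om x.1))⁻¹)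
    (Measurable.mul ((Finset.measurable_sum _ fun i _ =>
      (cs i).measurable.norm.pow_const _).ennreal_ofReal.pow_const _)
      (d.lp.measurable.comp measurable_subtype_coe).ennreal_ofReal.inv)
    (.of_forall fun p => mul_ne_zero (by simp [d.t0.le]) (by simp)) h2
    (hF.cont.comp (Rel.Pow.cont_mk b)) (fun k p => T.slice hF b p k) ?_
  have A0 : 0 < ∑ I, ‖a I‖ ^ 2 + 1 := by positivity
  have Ct : ENNReal.ofReal (∑ I, ‖a I‖ ^ 2 + 1) ^ d.t * ENNReal.ofReal (|c b| + 1) ≠ ⊤ :=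
    ENNReal.mul_ne_top (ENNReal.rpow_ne_top_of_nonneg d.t0.le ENNReal.ofReal_ne_top)
      ENNReal.ofReal_ne_top
  refine lt_of_le_of_lt ?_ (ENNReal.mul_lt_top Ct.lt_top h1)
  rw [← lintegral_const_mul' _ _ Ct]
  refine lintegral_mono fun x => ?_
  have p1 := close_pt (g := G (Rel.Pow.mk b x)) A0 d.t0.le
    (σ := fun k => ∑ i, ‖d.s i (x k).1‖ ^ 2) (fun k => by positivity)
    (by rw [ha]; exact ten_cs a fun k i => d.s i (x k).1)
  have p2 : 1 ≤ ENNReal.ofReal (|c b| + 1) * (ENNReal.ofReal (c b))⁻¹ := by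
    rw [← div_eq_mul_inv, ENNReal.le_div_iff_mul_le (Or.inr (by positivity))
      (Or.inl ENNReal.ofReal_ne_top), one_mul]
    exact ENNReal.ofReal_le_ofReal (by linarith [le_abs_self (c b)])
  simp only [Rel.Pow.mk_p, Rel.Pow.mk_b]
  rw [inv_prod fun k => d.lp.nonneg _, Finset.prod_mul_distrib, RD.WP.ofReal_sq]
  calc _ ≤ ‖F (Rel.Pow.mk b x)‖ₑ ^ (2 : ℝ) * (ENNReal.ofReal (∑ I, ‖a I‖ ^ 2 + 1) ^ d.t *
        ‖G (Rel.Pow.mk b x)‖ₑ ^ (-(2 * d.t)) * ∏ k, (ENNReal.ofReal (d.om (x k).1))⁻¹) *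
        (ENNReal.ofReal (|c b| + 1) * (ENNReal.ofReal (c b))⁻¹) :=
        le_trans (mul_le_mul_right (mul_le_mul_left p1 _) _) (le_mul_of_one_le_right' p2)
    _ = _ := by ring

theorem Data.pow (d : Data T ρ) {C0 : ℝ} (hC : 1 ≤ C0) {b1 : Pt B.O} {U : Pt T.X.O → ℂ}
    (h : d.Ok C0 b1 U) {η : ℝ} (hη : 0 < η) (N : ℕ) :
    ∃ R, N < R ∧ ∃ W : T.Pow (Fin R) → ℂ, (T.pow (Fin R)).Hol W ∧
      (∀ x : Fin R → T.Fib b1, W (Rel.Pow.mk b1 x) = ∏ k, U (x k).1) ∧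
      (∀ᵐ b ∂B.D.μ, ∃ a : (Fin R → ρ) → ℂ, ∀ x : Fin R → T.Fib b,
        W (Rel.Pow.mk b x) = ∑ I, a I * ∏ k, d.s (I k) (x k).1) ∧
      gI T d.om d.t d.φB η (B.D.π b1) R W ≤ ENNReal.ofReal ((2 * C0) ^ R) := by
  obtain ⟨r, V, r0, Vc, VW, V1, Vs, VR⟩ := sheet B.D b1 h.near
  obtain ⟨Mm, hM⟩ := RD.WP.exists_stepBd r0
  obtain ⟨C, β, β0, hg⟩ := h.glob
  obtain ⟨sB, hsB⟩ := d.exB
  obtain ⟨sX, hsX⟩ := d.exX
  have t0 := d.t0
  have t1 := d.t1
  have s0 : 0 ≤ 2 * (1 - d.t) := by linarith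
  have tt : 1 - (1 - d.t) = d.t := sub_sub_cancel _ _
  have tJ : Tendsto (fun J : ℕ => d.t ^ J) atTop (𝓝 0) :=
    tendsto_pow_atTop_nhds_zero_of_lt_one t0.le t1
  obtain ⟨J, J1, J2⟩ : ∃ J : ℕ, β * d.t ^ J ≤ η ∧ max C 1 ^ (d.t ^ J) ≤ 3 / 2 := by
    have a2 : Tendsto (fun J : ℕ => max C 1 ^ (d.t ^ J)) atTop (𝓝 1) := by
      simpa using (tendsto_const_nhds (x := max C 1)).rpow tJ (Or.inl (by positivity))
    exact (((tJ.const_mul β).eventually_le_const (by simpa using hη)).and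
      (a2.eventually_le_const (by norm_num))).exists
  let c : Pt B.O → ℝ := fun b => (∑ i, ‖B.D.π b i - B.D.π b1 i‖ ^ 2 + 1) ^ (Fintype.card δ + 1)
  have mc : Measurable c := by
    have := B.D.cont_π
    exact Continuous.measurable (by fun_prop)
  set vol := ∫⁻ b, (ENNReal.ofReal (c b))⁻¹ ∂B.D.μ with hvol
  set CI := RD.WP.cI (Fintype.card δ) r Mm (Fintype.card δ * r) with hCI
  have Kt : max 1 (CI ^ J * B.D.μ V) * max 1 vol ≠ ⊤ :=
    ENNReal.mul_ne_top (max_ne_top ENNReal.one_ne_top (ENNReal.mul_ne_top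
      (ENNReal.pow_ne_top (RD.WP.cI_ne_top _ _ _ _)) Vc.measure_lt_top.ne))
      (max_ne_top ENNReal.one_ne_top (d.vol _))
  obtain ⟨R, R1, R2⟩ : ∃ R : ℕ, N < R ∧
      (max 1 (CI ^ J * B.D.μ V) * max 1 vol).toReal ≤ (4 / 3) ^ R :=
    ((eventually_gt_atTop N).and
      ((tendsto_pow_atTop_atTop_of_one_lt (by norm_num)).eventually_ge_atTop _)).exists
  refine ⟨R, R1, ?_⟩
  let e : δ ↪ δ ⊕ Fin R × ν := Function.Embedding.inl
  have eπ : ∀ (q : T.Pow (Fin R)) i, (T.pow (Fin R)).π q (e i) = B.D.π q.b i := T.pow_inl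
  have mV : MeasurableSet V := Vc.measurableSet
  have mT : MeasurableSet (Rel.Pow.b ⁻¹' V : Set (T.Pow (Fin R))) := Rel.Pow.cont_b.measurable mV
  have T0 : ∫⁻ q in (Rel.Pow.b ⁻¹' V : Set (T.Pow (Fin R))), ‖∏ k, U (q.p k)‖ₑ ^ (2 * (1 - d.t)) *
      (ENNReal.ofReal (∏ k, d.om (q.p k)))⁻¹ ∂(T.pow (Fin R)).μ ≤
      B.D.μ V * ENNReal.ofReal C0 ^ R := by
    have := int_ten (κ := Fin R) d.lp t1 h.hol.cont (g := V.indicator 1)
      (measurable_one.indicator mV)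
    rw [← lintegral_indicator mT, mul_comm (B.D.μ V), ← lintegral_indicator_const mV]
    refine le_trans (le_of_eq ((lintegral_congr fun q => ?_).trans this))
      (lintegral_mono fun b => ?_)
    · by_cases hq : q.b ∈ V
      · have := ten_pt (fun k => d.lp.nonneg (q.p k)) 1 (fun k => U (q.p k)) s0
        rw [mul_one, ENNReal.ofReal_one, inv_one] at this
        rw [indicator_of_mem (show q ∈ Rel.Pow.b ⁻¹' V from hq), indicator_of_mem hq, this]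
        rfl
      · rw [indicator_of_notMem (show q ∉ Rel.Pow.b ⁻¹' V from hq), indicator_of_notMem hq,
          mul_zero]
    · by_cases hb : b ∈ V
      · simp only [indicator_of_mem hb, Pi.one_apply, mul_one, Fintype.card_fin]
        exact pow_le_pow_left' (VW hb) _
      · simp [indicator_of_notMem hb]
  have mρ : Measurable fun b => ENNReal.ofReal (Real.exp (-(R * β * d.φB b))) :=
    (d.mB.const_mul _).neg.exp.ennreal_ofReal
  have I0 : ∫⁻ q : T.Pow (Fin R), ‖∏ k, U (q.p k)‖ₑ ^ (2 * (1 - d.t)) *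
      (ENNReal.ofReal ((∏ k, d.om (q.p k)) * c q.b))⁻¹ *
      ENNReal.ofReal (Real.exp (-(R * β * d.φB q.b))) ∂(T.pow (Fin R)).μ ≤
      ENNReal.ofReal (max C 1) ^ R * vol := by
    have := int_ten (κ := Fin R) d.lp t1 h.hol.cont (g := fun b => (ENNReal.ofReal (c b))⁻¹ *
      ENNReal.ofReal (Real.exp (-(R * β * d.φB b)))) (mc.ennreal_ofReal.inv.mul mρ)
    rw [hvol, ← lintegral_const_mul' _ _ (ENNReal.pow_ne_top ENNReal.ofReal_ne_top)]
    refine le_trans (le_of_eq ((lintegral_congr fun q => ?_).trans this))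
      (lintegral_mono_ae (hg.mono fun b hb => ?_))
    · rw [ten_pt (fun k => d.lp.nonneg (q.p k)) _ (fun k => U (q.p k)) s0, mul_assoc]
    · rw [Fintype.card_fin, mul_comm (ENNReal.ofReal (c b))⁻¹, ← mul_assoc]
      refine mul_le_mul_left ?_ _
      have h1 := hb.trans (ENNReal.ofReal_le_ofReal
        (mul_le_mul_of_nonneg_right (le_max_left C 1) (Real.exp_pos _).le))
      refine (mul_le_mul_left (pow_le_pow_left' h1 R) _).trans (le_of_eq ?_)
      rw [← ENNReal.ofReal_pow (by positivity), ← ENNReal.ofReal_pow (by positivity),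
        ← ENNReal.ofReal_mul (by positivity), mul_pow, ← Real.exp_nat_mul, mul_assoc,
        ← Real.exp_add, ← mul_assoc, add_neg_cancel, Real.exp_zero, mul_one]
  obtain ⟨W, W1, W2, W3, -, W4⟩ := RD.WP.iterP (RD.hl (T.pow_exh (κ := Fin R) hsB hsX))
    (lp_pow d.lp) e (B.D.π b1) (R := Fintype.card δ * r) r0 hM mT
    (fun q hq => Rel.Pow.cont_b.continuousAt.eventually (Vs q.b (by simpa only [eπ] using hq)))
    (fun q hq => by simpa only [eπ] using VR q.b hq) (p := 1 - d.t) (by linarith) (by linarith)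
    (hol_ten h.hol) (ne_top_of_le_ne_top (ENNReal.mul_ne_top Vc.measure_lt_top.ne
      (ENNReal.pow_ne_top ENNReal.ofReal_ne_top)) T0)
    (ρ := fun q => ENNReal.ofReal (Real.exp (-(R * β * d.φB q.b))))
    (mρ.comp Rel.Pow.cont_b.measurable) (P := Ten d (Fin R))
    (fun G F hG hF hP hi => hP.close hG hF mc (by simpa only [eπ, tt] using hi))
    (h.span.mono fun b ⟨a, ha⟩ => ⟨fun I => ∏ k, a (I k), fun x => by
      simp only [Rel.Pow.mk_p, ha]
      rw [Finset.prod_univ_sum, Fintype.piFinset_univ]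
      exact Finset.sum_congr rfl fun I _ => Finset.prod_mul_distrib⟩) J
  refine ⟨W, W1, fun x => W3 _ V1 fun i => eπ _ i, W2, ?_⟩
  simp only [eπ, tt] at W4
  have tJ0 : 0 ≤ d.t ^ J := by positivity
  have tJ1 : d.t ^ J ≤ 1 := pow_le_one₀ t0.le t1.le
  have C1 : 1 ≤ ENNReal.ofReal C0 ^ R := one_le_pow₀ (ENNReal.one_le_ofReal.2 hC)
  have b1 : max 1 (CI ^ J * (B.D.μ V * ENNReal.ofReal C0 ^ R)) ≤
      max 1 (CI ^ J * B.D.μ V) * ENNReal.ofReal C0 ^ R :=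
    max_le (one_le_mul_of_one_le_of_one_le (le_max_left _ _) C1) (by
      rw [← mul_assoc]; exact mul_le_mul_left (le_max_right _ _) _)
  have b2 : (ENNReal.ofReal (max C 1) ^ R * vol) ^ (d.t ^ J) ≤
      ENNReal.ofReal (3 / 2) ^ R * max 1 vol := by
    rw [ENNReal.mul_rpow_of_nonneg _ _ tJ0]
    refine mul_le_mul' ?_ ?_
    · rw [← ENNReal.rpow_natCast, ← ENNReal.rpow_mul, mul_comm, ENNReal.rpow_mul,
        ENNReal.rpow_natCast, ENNReal.ofReal_rpow_of_nonneg (by positivity) tJ0]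
      exact pow_le_pow_left' (ENNReal.ofReal_le_ofReal J2) _
    · refine (ENNReal.rpow_le_rpow (le_max_right 1 vol) tJ0).trans ?_
      simpa using ENNReal.rpow_le_rpow_of_exponent_le (le_max_left 1 vol) tJ1
  refine le_trans (lintegral_mono fun q => mul_le_mul_right ?_ _) (W4.trans (le_trans (mul_le_mul'
    ((max_le_max_left _ (mul_le_mul_right T0 _)).trans b1)
    ((ENNReal.rpow_le_rpow I0 tJ0).trans b2)) ?_))
  · rw [ENNReal.ofReal_rpow_of_nonneg (Real.exp_pos _).le tJ0, ← Real.exp_mul]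
    refine ENNReal.ofReal_le_ofReal (Real.exp_le_exp.2 ?_)
    have := mul_le_mul_of_nonneg_right J1 (mul_nonneg (Nat.cast_nonneg R) (d.φB0 q.b))
    nlinarith
  · calc _ = (max 1 (CI ^ J * B.D.μ V) * max 1 vol) *
          (ENNReal.ofReal C0 ^ R * ENNReal.ofReal (3 / 2) ^ R) := by ring
      _ ≤ ENNReal.ofReal ((4 / 3) ^ R) *
          (ENNReal.ofReal C0 ^ R * ENNReal.ofReal (3 / 2) ^ R) :=
          mul_le_mul_left ((ENNReal.ofReal_toReal Kt).symm.trans_le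
            (ENNReal.ofReal_le_ofReal R2)) _
      _ = _ := by
          rw [← ENNReal.ofReal_pow (by positivity), ← ENNReal.ofReal_pow (by positivity),
            ← ENNReal.ofReal_mul (by positivity), ← ENNReal.ofReal_mul (by positivity),
            ← mul_pow, ← mul_pow]
          congr 2
          ring

end Xt

end

end Pool.Agent.Lib.MP_5c318e_ag
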