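import Pool.Agent.Lib.MP_5c318e_ag.Xt.Lsc
import Pool.Agent.Lib.MP_5c318e_ag.Xt.Pow
import Pool.Agent.Lib.MP_5c318e_ag.Xt.Diag
import Pool.Agent.Lib.MP_5c318e_ag.Xt.Loc
import Pool.Agent.Lib.MP_5c318e_ag.RD.RExt

/-! A smooth plurisubharmonic weight on the total space that is large on many fibres. -/

set_option autoImplicit false
set_option linter.unusedSectionVars false

namespace Pool.Agent.Lib.MP_5c318e_ag

open MeasureTheory Set Filter Topology Metric
open scoped ENNReal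

noncomputable section

namespace Xt

theorem sq_pow_eq {p : ℝ} (hp : 0 < p) (a : ℂ) (k : ℕ) :
    ‖a ^ k‖ ^ 2 = (‖a‖ ^ (2 * p)) ^ (k / p : ℝ) := by
  rw [← Real.rpow_mul (norm_nonneg a), norm_pow, ← pow_mul, ← Real.rpow_natCast]
  congr 1
  push_cast
  field_simp

theorem lsc_ind {X : Type} [TopologicalSpace X] {U : Set X} (hU : IsOpen U) {Q : X → ℝ≥0∞}
    (hQ : LowerSemicontinuous Q) : LowerSemicontinuous (U.indicator Q) := fun x c hc => by
  replace hc : c < U.indicator Q x := hc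
  show ∀ᶠ y in 𝓝 x, c < U.indicator Q y
  by_cases hx : x ∈ U
  · rw [indicator_of_mem hx] at hc
    filter_upwards [hU.mem_nhds hx, hQ x c hc] with y h1 h2
    rwa [indicator_of_mem h1]
  · rw [indicator_of_notMem hx] at hc
    exact absurd hc not_lt_zero

theorem fin_cover {X I : Type} [TopologicalSpace X] [SecondCountableTopology X] [MeasurableSpace X]
    (μ : Measure X) {O : I → Set X} (hO : ∀ i, IsOpen (O i)) {Z : Set X} (hZ : Z ⊆ ⋃ i, O i)
    {c : ℝ≥0∞} (hc : c < μ Z) : ∃ J : Finset I, c < μ (Z ∩ ⋃ i ∈ J, O i) := by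
  classical
  obtain ⟨A, a1, a2⟩ := TopologicalSpace.isOpen_iUnion_countable O hO
  have := a1.to_subtype
  have mo : Monotone fun J : Finset A => Z ∩ ⋃ i ∈ J, O i.1 := fun J J' h =>
    inter_subset_inter_right _ (biUnion_subset_biUnion_left h)
  have e : Z ⊆ ⋃ J : Finset A, Z ∩ ⋃ i ∈ J, O i.1 := fun x hx => by
    obtain ⟨i, hi, h⟩ := mem_iUnion₂.1 (a2 ▸ hZ hx)
    exact mem_iUnion.2 ⟨{⟨i, hi⟩}, hx, by simpa using h⟩
  have := hc.trans_le (measure_mono e)
  rw [mo.directed_le.measure_iUnion, lt_iSup_iff] at this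
  obtain ⟨J, hJ⟩ := this
  refine ⟨J.image Subtype.val, hJ.trans_le (measure_mono (inter_subset_inter_right _ ?_))⟩
  exact iUnion₂_subset fun i hi => subset_biUnion_of_mem (u := O) (Finset.mem_image_of_mem _ hi)

variable {δ ν K M : Type} [Fintype δ] [DecidableEq δ] [Fintype ν] [DecidableEq ν]
  [Field K] [Algebra ℂ K] [Field M] [Algebra ℂ M] [Algebra K M] [IsScalarTower ℂ K M]
  {B : Cht δ K} {T : Rel B ν M}
  {ρ : Type} [Fintype ρ] [DecidableEq ρ]

/-- one fibre -/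
theorem Data.one (d : Data T ρ) {C0 : ℝ} (hC : 1 ≤ C0) {b1 : Pt B.O} {U : Pt T.X.O → ℂ}
    (h : d.Ok C0 b1 U) {η : ℝ} (hη : 0 < η) : ∃ (R : ℕ) (g : Pt T.X.O → ℂ), 0 < R ∧ T.X.D.Hol g ∧
      (∀ x : T.Fib b1, g x.1 = U x.1 ^ R) ∧
      (∀ x, ‖g x‖ ^ (2 * (1 - d.t)) ≤ Real.exp (R * (d.Ψ x + η * d.φ x + Real.log C0 + 2))) ∧
      ∀ b0 : Pt B.O, (∀ a : ρ → ℂ, (∀ p : T.Fib b0, ∑ i, a i * d.s i p.1 = 0) → a = 0) →
        ∃ C : ℝ, ∀ᶠ b in 𝓝 b0, ∀ x : T.Fib b, ‖g x.1‖ ^ 2 ≤ C * (∑ i, ‖d.s i x.1‖ ^ 2) ^ R := by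
  obtain ⟨A', a0, ha⟩ := d.diag (B.D.π b1)
  have A0 := d.A0
  set e := min η 1 with he
  have e0 : 0 < e := lt_min hη one_pos
  have e1 : 0 < e / (2 * (d.A + 1)) := by positivity
  obtain ⟨R, r1, W, w1, w2, w3, w4⟩ := d.pow hC h e1 ⌈2 * A' / e⌉₊
  have r2 : 2 * A' / e < R := (Nat.le_ceil _).trans_lt (by exact_mod_cast r1)
  refine ⟨R, fun x => W (dg T R x), (Nat.zero_le _).trans_lt r1, hol_dg w1, fun x => ?_,
    fun x => (ha R _ _ e1.le (by positivity) W w1 w4 x).trans ?_, loc_bound d.hol w1 w3⟩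
  · have : dg T R x.1 = Rel.Pow.mk b1 fun _ => x := Rel.Pow.ext x.2 fun _ => rfl
    simp only [this, w2, Finset.prod_const, Finset.card_univ, Fintype.card_fin]
  · rw [← Real.exp_log (show 0 < 2 * C0 by positivity), ← Real.exp_nat_mul, ← Real.exp_add,
      Real.exp_le_exp, Real.log_mul two_ne_zero (by positivity)]
    have f0 := d.φ0 x
    have R0 : (0 : ℝ) ≤ R := Nat.cast_nonneg R
    have l2 : Real.log 2 ≤ 1 := (Real.log_le_sub_one_of_pos two_pos).trans (by norm_num)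
    have b1 : e / (2 * (d.A + 1)) * d.A ≤ e / 2 := by
      rw [div_mul_eq_mul_div, div_le_div_iff₀ (by positivity) two_pos]
      nlinarith
    have b2 : A' ≤ R * (e / 2) := by
      rw [div_lt_iff₀ e0] at r2
      linarith
    have b3 : e ≤ η := min_le_left _ _
    have b4 : e ≤ 1 := min_le_right _ _
    have c1 : e / (2 * (d.A + 1)) * R * (d.A * d.φ x + d.A) ≤ R * (e / 2) * (d.φ x + 1) := by
      have := mul_le_mul_of_nonneg_right b1 (show 0 ≤ R * (d.φ x + 1) by positivity)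
      linarith
    have c2 : A' * d.φ x + A' ≤ R * (e / 2) * (d.φ x + 1) := by
      have := mul_le_mul_of_nonneg_right b2 (show 0 ≤ d.φ x + 1 by positivity)
      linarith
    have c3 := mul_le_mul_of_nonneg_left l2 R0
    have c4 := mul_le_mul_of_nonneg_left b4 R0
    have c5 := mul_le_mul_of_nonneg_left b3 (mul_nonneg R0 f0)
    linarith

/-- the total space weight -/
theorem Data.main (d : Data T ρ) {C0 : ℝ} (hC : 1 ≤ C0) {ψ : Pt T.X.O → ℝ} (hψ : T.X.D.Psh ψ)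
    {L : Pt T.X.O → ℝ} (hL : Continuous L) {Q : Pt T.X.O → ℝ≥0∞} (hQ : LowerSemicontinuous Q)
    {m0 : ℝ≥0∞} {Z : Set (Pt B.O)} (hZ : ∀ b ∈ Z, ∃ U, d.Ok C0 b U ∧
      m0 < ∫⁻ x in {x | Real.exp (L x.1) < ‖U x.1‖ ^ (2 * (1 - d.t))}, Q x.1 ∂(T.fib b).μ)
    {c : ℝ≥0∞} (hc : c < B.D.μ Z) {η : ℝ} (hη : 0 < η) :
    ∃ w : Pt T.X.O → ℝ, T.X.D.Psh w ∧ (∀ x, (1 - d.t) * ψ x ≤ w x) ∧
      (∀ x, w x ≤ max ((1 - d.t) * ψ x) (d.Ψ x + η * d.φ x + Real.log C0 + 2) + 1) ∧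
      (∀ b0 : Pt B.O, (∀ a : ρ → ℂ, (∀ p : T.Fib b0, ∑ i, a i * d.s i p.1 = 0) → a = 0) →
        ∃ C : ℝ, ∀ᶠ b in 𝓝 b0, ∀ x : T.Fib b,
          w x.1 ≤ (1 - d.t) * Real.log (∑ i, ‖d.s i x.1‖ ^ 2 + Real.exp (ψ x.1)) + C) ∧
      ∃ O : Set (Pt B.O), IsOpen O ∧ c < B.D.μ (Z ∩ O) ∧
        ∀ b ∈ O, m0 < ∫⁻ x in {x | L x.1 < w x.1}, Q x.1 ∂(T.fib b).μ := by
  classical
  choose U hU hm using fun b : Z => hZ b b.2
  choose R g g0 g1 g2 g3 g4 using fun b : Z => d.one hC (hU b) hη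
  set p := 1 - d.t with hp
  have p0 : 0 < p := sub_pos.2 d.t1
  have p1 : p ≤ 1 := sub_le_self _ d.t0.le
  let V : Z → Set (Pt T.X.O) := fun i => {x | Real.exp (R i * L x) < ‖g i x‖ ^ (2 * p)}
  have Vo : ∀ i, IsOpen (V i) := fun i => isOpen_lt (by fun_prop)
    ((g1 i).cont.norm.rpow_const fun _ => Or.inr (by positivity))
  have Vi : ∀ i b, ∫⁻ x, (V i).indicator Q x.1 ∂(T.fib b).μ =
      ∫⁻ x in Subtype.val ⁻¹' V i, Q x.1 ∂(T.fib b).μ := fun i b => by
    rw [← lintegral_indicator ((Vo i).preimage continuous_subtype_val).measurableSet]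
    rfl
  let O : Z → Set (Pt B.O) := fun i => {b | m0 < ∫⁻ x, (V i).indicator Q x.1 ∂(T.fib b).μ}
  have Oo : ∀ i, IsOpen (O i) := fun i => (lsc_fib (lsc_ind (Vo i) hQ)).isOpen_preimage m0
  obtain ⟨J, hJ⟩ := fin_cover B.D.μ Oo (Z := Z) (fun b hb => mem_iUnion.2 ⟨⟨b, hb⟩, by
    refine (hm ⟨b, hb⟩).trans_le ?_
    rw [Vi]
    refine lintegral_mono_set fun x hx => ?_
    show Real.exp (_ * _) < _
    rw [g2 ⟨b, hb⟩ x, norm_pow, ← Real.rpow_pow_comm (norm_nonneg _), Real.exp_nat_mul]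
    exact pow_lt_pow_left₀ hx (Real.exp_pos _).le (g0 _).ne'⟩) hc
  set N : ℕ := (J.card + 1) * ∏ i ∈ J, R i with hN
  let k : Z → ℕ := fun i => (J.card + 1) * ∏ j ∈ J.erase i, R j
  have Rk : ∀ i ∈ J, R i * k i = N := fun i hi => by
    rw [hN, ← Finset.mul_prod_erase J R hi]
    ring
  have Rk' : ∀ i ∈ J, (R i : ℝ) * k i = N := fun i hi => by exact_mod_cast Rk i hi
  have N1 : J.card + 1 ≤ N := Nat.le_mul_of_pos_right _ (Finset.prod_pos fun i _ => g0 i)
  have N2 : (J.card : ℝ) + 1 ≤ N := by exact_mod_cast N1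
  have N0 : (0 : ℝ) < N := lt_of_lt_of_le (by positivity) N2
  have k0 : ∀ i, (0 : ℝ) < k i := fun i => by
    exact_mod_cast Nat.mul_pos J.card.succ_pos (Finset.prod_pos fun i _ => g0 i)
  let Sg : Pt T.X.O → ℝ := fun x => ∑ i ∈ J, ‖g i x ^ k i‖ ^ 2 + Real.exp (N * ψ x)
  have S0 : ∀ x, 0 < Sg x := fun x => by positivity
  have up : ∀ x (a y : ℝ), 0 < a → Sg x ≤ a * Real.exp (N * y) →
      p / N * Real.log (Sg x) ≤ p * y + p / N * Real.log a := fun x a y ha h => by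
    have := Real.log_le_log (S0 x) h
    rw [Real.log_mul ha.ne' (Real.exp_pos _).ne', Real.log_exp] at this
    refine (mul_le_mul_of_nonneg_left this (by positivity)).trans (le_of_eq ?_)
    field_simp
    ring
  have lo : ∀ x (y : ℝ), Real.exp (N * y) < Sg x → p * y < p / N * Real.log (Sg x) :=
    fun x y h => by
    have := mul_lt_mul_of_pos_left ((Real.lt_log_iff_exp_lt (S0 x)).2 h) (div_pos p0 N0)
    rwa [← mul_assoc, div_mul_cancel₀ _ N0.ne'] at this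
  refine ⟨fun x => p / N * Real.log (Sg x), RD.WP.psh_mul (psh_lse J (fun i _ => RD.Hol.pow (g1 i) _)
    (RD.WP.psh_mul hψ N0.le)) (by positivity), fun x => ?_, fun x => ?_, fun b0 h0 => ?_,
    ⋃ i ∈ J, O i, isOpen_biUnion fun i _ => Oo i, hJ, fun b hb => ?_⟩
  · have := mul_le_mul_of_nonneg_left ((Real.le_log_iff_exp_le (S0 x)).2
      (le_add_of_nonneg_left (by positivity) : Real.exp (N * ψ x) ≤ Sg x)) (div_pos p0 N0).le
    rwa [← mul_assoc, div_mul_cancel₀ _ N0.ne'] at this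
  · set m := max (p * ψ x) (d.Ψ x + η * d.φ x + Real.log C0 + 2) with hm'
    have h1 : ∀ i ∈ J, ‖g i x ^ k i‖ ^ 2 ≤ Real.exp (N * (m / p)) := fun i hi => by
      rw [sq_pow_eq p0]
      refine (Real.rpow_le_rpow (by positivity) (g3 i x) (by have := k0 i; positivity)).trans ?_
      rw [← Real.exp_mul, Real.exp_le_exp, ← Rk' i hi]
      have := mul_le_mul_of_nonneg_left (le_max_right (p * ψ x) _ : _ ≤ m)
        (show (0 : ℝ) ≤ R i * (k i / p) by have := k0 i; positivity)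
      refine le_trans (le_of_eq (by ring)) (this.trans (le_of_eq (by ring)))
    have h2 : Real.exp (N * ψ x) ≤ Real.exp (N * (m / p)) := by
      rw [Real.exp_le_exp]
      refine mul_le_mul_of_nonneg_left ?_ N0.le
      rw [le_div_iff₀' p0]
      exact le_max_left _ _
    have h3 := up x (J.card + 1) (m / p) (by positivity) (by
      have := Finset.sum_le_card_nsmul J _ _ h1
      rw [nsmul_eq_mul] at this
      simp only [Sg]
      linarith)
    rw [mul_div_cancel₀ _ p0.ne'] at h3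
    refine h3.trans (add_le_add le_rfl ?_)
    have h4 : Real.log (J.card + 1) ≤ N :=
      (Real.log_le_sub_one_of_pos (by positivity)).trans (by linarith)
    rw [div_mul_eq_mul_div, div_le_one N0]
    exact (mul_le_mul_of_nonneg_left h4 p0.le).trans (mul_le_of_le_one_left N0.le p1)
  · choose C hC' using fun i => g4 i b0 h0
    refine ⟨p / N * Real.log (∑ i ∈ J, |C i| ^ k i + 1), ?_⟩
    filter_upwards [(eventually_all_finset J).2 fun i _ => hC' i] with b hb x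
    refine up x.1 _ _ (by positivity) ?_
    set a := ∑ i, ‖d.s i x.1‖ ^ 2 with ha
    have a0 : 0 ≤ a := by positivity
    have E0 := Real.exp_pos (ψ x.1)
    rw [Real.exp_nat_mul, Real.exp_log (by positivity), add_mul, one_mul, Finset.sum_mul]
    refine add_le_add (Finset.sum_le_sum fun i hi => ?_) ?_
    · rw [norm_pow, ← pow_mul, mul_comm (k i), pow_mul _ 2, ← Rk i hi, pow_mul _ (R i), ← mul_pow]
      refine pow_le_pow_left₀ (by positivity) ((hb i hi x).trans ?_) _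
      exact mul_le_mul (le_abs_self _) (pow_le_pow_left₀ a0 (by linarith) _) (by positivity)
        (abs_nonneg _)
    · rw [Real.exp_nat_mul]
      exact pow_le_pow_left₀ E0.le (by linarith) _
  · obtain ⟨i, hi, h⟩ := mem_iUnion₂.1 hb
    refine lt_of_lt_of_le h ?_
    rw [Vi]
    refine lintegral_mono_set fun x hx => ?_
    have h1 := lo x.1 (L x.1 / p) (by
      refine lt_of_lt_of_le ?_ (le_add_of_le_of_nonneg (Finset.single_le_sum
        (f := fun i => ‖g i x.1 ^ k i‖ ^ 2) (fun _ _ => by positivity) hi) (Real.exp_pos _).le)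
      rw [sq_pow_eq p0]
      refine lt_of_le_of_lt (le_of_eq ?_)
        (Real.rpow_lt_rpow (Real.exp_pos _).le hx (div_pos (k0 i) p0))
      rw [← Real.exp_mul, ← Rk' i hi]
      congr 1
      ring)
    rwa [mul_div_cancel₀ _ p0.ne'] at h1

end Xt

end

end Pool.Agent.Lib.MP_5c318e_ag
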