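import Pool.Agent.Lib.MP_5c318e_ag.Fp.PwDefs
import Pool.Agent.Lib.MP_5c318e_ag.W.LP

/-! Fibre integrals of lower semicontinuous functions; logarithms of sums. -/

set_option autoImplicit false
set_option linter.unusedSectionVars false

namespace Pool.Agent.Lib.MP_5c318e_ag

open MeasureTheory Set Filter Topology
open scoped ENNReal
open Pool.Agent.Lib.MP_9ff3e7_ag

namespace Xt

/-- sums over the fibres of a map with local sections -/
theorem lsc_tsum {S E : Type} [TopologicalSpace S] [T2Space S] [TopologicalSpace E] {f : S → E}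
    (h : ∀ p, ∃ σ : E → S, σ (f p) = p ∧ ContinuousAt σ (f p) ∧ ∀ᶠ e in 𝓝 (f p), f (σ e) = e)
    {G : S → ℝ≥0∞} (hG : LowerSemicontinuous G) :
    LowerSemicontinuous fun e => ∑' y : f ⁻¹' {e}, G y := by
  classical
  choose σ s1 s2 s3 using h
  intro e0 c hc
  obtain ⟨s, hs⟩ := lt_iSup_iff.1 (hc.lt.trans_eq ENNReal.tsum_eq_iSup_sum)
  have e : ∀ y : f ⁻¹' {e0}, f y = e0 := fun y => y.2
  have c1 : ∀ y : f ⁻¹' {e0}, σ y e0 = y := fun y => by simpa only [e y] using s1 y
  have c2 : ∀ y : f ⁻¹' {e0}, ContinuousAt (σ y) e0 := fun y => by simpa only [e y] using s2 y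
  have c3 : ∀ y : f ⁻¹' {e0}, ∀ᶠ e in 𝓝 e0, f (σ y e) = e := fun y => by
    simpa only [e y] using s3 y
  have l : LowerSemicontinuousAt (fun e => ∑ y ∈ s, G (σ y e)) e0 :=
    lowerSemicontinuousAt_sum fun y _ => (hG _).comp (c2 y)
  have n : ∀ y y' : f ⁻¹' {e0}, ∀ᶠ e in 𝓝 e0, σ y e = σ y' e → y = y' := fun y y' => by
    by_cases hy : y = y'
    · exact .of_forall fun _ _ => hy
    · exact (((c2 y).prodMk (c2 y')).eventually (isClosed_diagonal.isOpen_compl.mem_nhds fun h =>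
        hy (Subtype.ext ((c1 y).symm.trans (h.trans (c1 y')))))).mono fun _ h1 h2 => (h1 h2).elim
  filter_upwards [l c (by simpa only [c1] using hs), (eventually_all_finset s).2 fun y _ => c3 y,
    (eventually_all_finset s).2 fun y _ => (eventually_all_finset s).2 fun y' _ => n y y']
    with e h1 h2 h3
  rw [tsum_subtype]
  refine h1.trans_le (le_trans (le_of_eq ?_)
    (ENNReal.sum_le_tsum (s.image fun y : f ⁻¹' {e0} => σ y.1 e)))
  rw [Finset.sum_image fun y hy y' hy' => h3 y hy y' hy']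
  exact Finset.sum_congr rfl fun y hy =>
    (indicator_of_mem (s := f ⁻¹' {e}) (a := σ y.1 e) (h2 y hy) G).symm

variable {δ ν K M : Type} [Fintype δ] [DecidableEq δ] [Fintype ν] [DecidableEq ν]
  [Field K] [Algebra ℂ K] [Field M] [Algebra ℂ M] [Algebra K M] {B : Cht δ K} {T : Rel B ν M}

/-- fibre integrals of lower semicontinuous functions -/
theorem lsc_fib {G : Pt T.X.O → ℝ≥0∞} (hG : LowerSemicontinuous G) :
    LowerSemicontinuous fun b => ∫⁻ x, G x.1 ∂(T.fib b).μ := by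
  let f : Pt T.X.O → Pt B.O × (ν → ℂ) := fun p => (p.res T.inc, fun j => T.X.D.π p (Sum.inr j))
  have L : LowerSemicontinuous fun e => ∑' y : f ⁻¹' {e}, G y := lsc_tsum (fun p => by
    let l : Pt B.O × (ν → ℂ) → δ ⊕ ν → ℂ := fun e => Sum.elim (B.D.π e.1) e.2
    have lc : Continuous l := continuous_pi fun i => by
      rcases i with i | i
      · exact (continuous_apply i).comp (B.D.cont_π.comp continuous_fst)
      · exact (continuous_apply i).comp continuous_snd
    have lp : l (f p) = T.X.D.π p := funext fun i => by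
      rcases i with i | i
      · exact (T.π_inl p i).symm
      · rfl
    have lt : Tendsto l (𝓝 (f p)) (𝓝 (T.X.D.π p)) := lp ▸ lc.tendsto _
    refine ⟨fun e => T.X.D.sec p (l e), (congrArg _ lp).trans (T.X.D.sec_self p),
      (RD.sec_contAt (lp ▸ T.X.D.mem_tgt p)).comp lc.continuousAt, ?_⟩
    filter_upwards [lt.eventually (T.sec_res p), lt.eventually (T.X.D.π_sec_ev p),
      (continuous_fst.tendsto (f p)).eventually
        ((B.D.ch (p.res T.inc)).open_source.mem_nhds (B.D.mem_src _))] with e h1 h2 h3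
    exact Prod.ext (h1.trans (RD.sec_π h3)) (funext fun j => congrFun h2 (Sum.inr j))) hG
  have e : ∀ b, ∫⁻ x, G x.1 ∂(T.fib b).μ = ∫⁻ z, ∑' y : f ⁻¹' {(b, z)}, G y := fun b => by
    have : SigmaCompactSpace (T.Fib b) :=
      (isClosed_eq (Pt.continuous_res T.inc) continuous_const).sigmaCompactSpace
    refine ((T.fib b).lintegral_eq (hG.measurable.comp measurable_subtype_coe)).trans
      (lintegral_congr fun z => ?_)
    have hp : ∀ p : T.Fib b, (T.fib b).π p = fun j => T.X.D.π p.1 (Sum.inr j) := fun p =>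
      funext fun j => by rw [T.fib_π, T.X.π_eq]
    let q : (T.fib b).π ⁻¹' {z} ≃ f ⁻¹' {(b, z)} :=
      { toFun := fun y => ⟨y.1.1, Prod.ext y.1.2 ((hp _).symm.trans y.2)⟩
        invFun := fun y => ⟨⟨y.1, congrArg Prod.fst y.2⟩, (hp _).trans (congrArg Prod.snd y.2)⟩
        left_inv := fun _ => rfl
        right_inv := fun _ => rfl }
    exact q.tsum_eq fun y => G y
  simp only [e]
  refine lowerSemicontinuous_iff_le_liminf.2 fun b => le_trans (lintegral_mono fun z => ?_)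
    (lintegral_liminf_le fun b => (L.comp (Continuous.prodMk_right b)).measurable)
  exact lowerSemicontinuous_iff_le_liminf.1 (L.comp (Continuous.prodMk_left z)) b

theorem psh_lse {ι S α : Type} [Fintype ι] [TopologicalSpace S] [MeasurableSpace S] {D : RD ι S}
    (J : Finset α) {g : α → S → ℂ} (hg : ∀ a ∈ J, D.Hol (g a)) {ψ : S → ℝ} (hψ : D.Psh ψ) :
    D.Psh fun x => Real.log (∑ a ∈ J, ‖g a x‖ ^ 2 + Real.exp (ψ x)) := by
  have an : ∀ x, ∀ a ∈ J, AnalyticAt ℂ (fun z => g a (D.sec x z)) (D.π x) := fun x a ha =>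
    RD.WP.ana (hg a ha) x
  refine ⟨fun x => ((F.contDiffAt_sum_normSq J (an x)).add (hψ.1 x).exp).log (by positivity),
    fun x ξ => ?_⟩
  have c1 := F.contDiffAt_sum_normSq (n := 2) J (an x)
  have c2 := hψ.1.two x
  have d2 := c2.differentiableAt (by norm_num)
  have l0 := hψ.2 x ξ
  have cs := F.norm_sum_mul_conj_sq_le J (fun a => g a (D.sec x (D.π x)))
    fun a => fderiv ℂ (fun z => g a (D.sec x z)) (D.π x) ξ
  unfold RD.levi at l0 ⊢
  rw [F.levi_log (c1.add c2.exp) (by positivity), F.levi_add c1 c2.exp,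
    F.levi_sum_normSq J (an x), F.levi_exp c2]
  simp only [Complex.ofReal_add]
  rw [F.dbar_add (F.diffAt_ofReal (c1.differentiableAt (by norm_num))) (F.diffAt_ofReal d2.exp),
    F.dbar_sum_normSq J fun a ha => (an x a ha).differentiableAt, F.dbar_exp d2, sub_nonneg,
    div_le_div_iff₀ (by positivity) (by positivity)]
  have p0 : 0 ≤ ∑ a ∈ J, ‖g a (D.sec x (D.π x))‖ ^ 2 := by positivity
  have p1 : 0 ≤ ∑ a ∈ J, ‖fderiv ℂ (fun z => g a (D.sec x z)) (D.π x) ξ‖ ^ 2 := by positivity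
  have p2 := Real.exp_pos (ψ (D.sec x (D.π x)))
  generalize ∑ a ∈ J, ‖g a (D.sec x (D.π x))‖ ^ 2 = P at *
  generalize ∑ a ∈ J, ‖fderiv ℂ (fun z => g a (D.sec x z)) (D.π x) ξ‖ ^ 2 = Q at *
  generalize Real.exp (ψ (D.sec x (D.π x))) = E at *
  generalize ∑ a ∈ J, _ * (starRingEnd ℂ) _ = Y at *
  generalize F.dbar _ _ _ = X at *
  generalize F.levi _ _ _ = l at *
  have n1 : ‖Y + E * X‖ ≤ ‖Y‖ + E * ‖X‖ := (norm_add_le _ _).trans_eq (by
    rw [norm_mul, Complex.norm_real, Real.norm_of_nonneg p2.le])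
  have n2 : 2 * ‖Y‖ * ‖X‖ ≤ Q + P * ‖X‖ ^ 2 := (abs_le_of_sq_le_sq' (by
    nlinarith [sq_nonneg (Q - P * ‖X‖ ^ 2), mul_le_mul_of_nonneg_right cs (sq_nonneg ‖X‖)])
    (by positivity)).2
  have n3 : ‖Y + E * X‖ ^ 2 ≤ (Q + E * (l + ‖X‖ ^ 2)) * (P + E) := by
    refine (pow_le_pow_left₀ (norm_nonneg _) n1 2).trans ?_
    nlinarith [mul_le_mul_of_nonneg_left n2 p2.le,
      mul_nonneg (mul_nonneg p2.le l0) (add_nonneg p0 p2.le)]
  nlinarith [mul_le_mul_of_nonneg_right n3 (add_nonneg p0 p2.le)]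

end Xt

end Pool.Agent.Lib.MP_5c318e_ag
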